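import Pool.Agent.U958.FV.GL2
import Pool.Agent.W716.FV.Asm

/-!
# Assembly, part 1: one chart
-/

set_option autoImplicit false

open MeasureTheory InnerProductGeometry Set Filter Topology

namespace Pool.Agent.U958.FV

open Pool.Agent.W716.FV
open Pool.Agent.H241R3.FV (Sph ext RChart Fill Triang gnorm)
open Pool.Agent.W716.FV.Asm (map_contOn fm fm_cont sd sd_meas sd_sub fm_aem2 fm_aem fm_jac Kf
  cont_det Kf_aem II c1 Om Om_meas cov)

theorem meas_wt2 (n : ℕ) (ε : ℝ) : Measurable (fun p : E n × (ℝ × E n) => wt2 ε p.1 p.2) := by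
  classical
  unfold wt2
  refine Measurable.ite ?_ ?_ measurable_const
  · have h1 : IsClosed {p : E n × (ℝ × E n) | ‖p.2.2‖ ≤ ε} :=
      isClosed_le (f := fun p : E n × (ℝ × E n) => ‖p.2.2‖) (g := fun _ => ε)
        (by fun_prop) continuous_const
    have h0 : IsClosed {p : E n × (ℝ × E n) | 0 ≤ p.2.1} :=
      isClosed_le (f := fun _ : E n × (ℝ × E n) => (0 : ℝ)) (g := fun p => p.2.1)
        continuous_const (by fun_prop)
    have h2 : IsClosed {p : E n × (ℝ × E n) | p.2.1 ≤ 1 / 2} :=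
      isClosed_le (f := fun p : E n × (ℝ × E n) => p.2.1) (g := fun _ => (1 / 2 : ℝ))
        (by fun_prop) continuous_const
    exact (h1.inter (h0.inter h2)).measurableSet
  · have h3 : Continuous (fun p : E n × (ℝ × E n) =>
        Real.exp (-‖p.1‖ ^ 2 / 2 - inner ℝ p.2.2 p.1)) := by fun_prop
    have h4 : Continuous (fun p : E n × (ℝ × E n) => phi p.2.1) :=
      phi_cont.comp (continuous_fst.comp continuous_snd)
    exact (h3.mul h4).measurable

theorem wt2_nonneg {n : ℕ} (ε : ℝ) (η : E n) (z : ℝ × E n) : 0 ≤ wt2 ε η z := by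
  unfold wt2
  split_ifs with h
  · exact mul_nonneg (Real.exp_pos _).le (phi_nonneg h.2.1 h.2.2)
  · exact le_rfl

attribute [local irreducible] SS TT UU

/-- factor of the integrand that depends on `η` -/
noncomputable def gf2 {n : ℕ} {M : Type} [MetricSpace M] (bd : Sph n → M) (C : RChart n M) (ε : ℝ)
    (η : E n) (z : ℝ × E n) : ENNReal :=
  ENNReal.ofReal (wt2 ε η (fm bd C η z) * Real.exp ((fm bd C η z).1 - 1 / 2))

theorem gf2_aem {n : ℕ} {M : Type} [MetricSpace M] (bd : Sph n → M) (C : RChart n M)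
    (hc : Continuous (fun z : E n × ℝ × M => Psi bd z.1 z.2.1 z.2.2)) (ε : ℝ) :
    AEMeasurable (fun p : E n × (ℝ × E n) => gf2 bd C ε p.1 p.2)
      ((volume : Measure (E n)).prod ((volume : Measure (ℝ × E n)).restrict (sd C))) := by
  have h0 := fm_aem2 bd C hc
  have h1 : AEMeasurable (fun p : E n × (ℝ × E n) => (p.1, fm bd C p.1 p.2))
      ((volume : Measure (E n)).prod ((volume : Measure (ℝ × E n)).restrict (sd C))) :=
    AEMeasurable.prodMk measurable_fst.aemeasurable h0
  have h2 : AEMeasurable (fun p : E n × (ℝ × E n) => wt2 ε p.1 (fm bd C p.1 p.2))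
      ((volume : Measure (E n)).prod ((volume : Measure (ℝ × E n)).restrict (sd C))) := by
    have := (meas_wt2 n ε).comp_aemeasurable h1
    exact this
  have h3 : AEMeasurable (fun p : E n × (ℝ × E n) => (fm bd C p.1 p.2).1)
      ((volume : Measure (E n)).prod ((volume : Measure (ℝ × E n)).restrict (sd C))) := by
    have := measurable_fst.comp_aemeasurable h0
    exact this
  have h4 : AEMeasurable (fun p : E n × (ℝ × E n) => Real.exp ((fm bd C p.1 p.2).1 - 1 / 2))
      ((volume : Measure (E n)).prod ((volume : Measure (ℝ × E n)).restrict (sd C))) := by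
    have := Real.measurable_exp.comp_aemeasurable (h3.sub_const (1 / 2))
    exact this
  have h5 := h2.mul h4
  exact h5.ennreal_ofReal

theorem Kg2_aem {n : ℕ} {M : Type} [MetricSpace M] (bd : Sph n → M) (C : RChart n M)
    (hc : Continuous (fun z : E n × ℝ × M => Psi bd z.1 z.2.1 z.2.2)) (ε : ℝ) :
    AEMeasurable (fun p : E n × (ℝ × E n) => Kf C p.2 * gf2 bd C ε p.1 p.2)
      ((volume : Measure (E n)).prod ((volume : Measure (ℝ × E n)).restrict (sd C))) := by
  have h1 : AEMeasurable (fun p : E n × (ℝ × E n) => Kf C p.2)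
      ((volume : Measure (E n)).prod ((volume : Measure (ℝ × E n)).restrict (sd C))) :=
    (Kf_aem C).comp_snd
  exact h1.mul (gf2_aem bd C hc ε)

/-- the estimate in one chart -/
theorem chart_bound2 (hPP : PerP2) {n : ℕ} {M : Type} [MetricSpace M] (bd : Sph n → M)
    (hU : ∀ q, Good 1 (UU bd q)) (C : RChart n M)
    (hc : Continuous (fun z : E n × ℝ × M => Psi bd z.1 z.2.1 z.2.2)) (ε : ℝ) (hε : 0 < ε) :
    ∫⁻ η : E n, ∫⁻ z in sd C, Kf C z * gf2 bd C ε η z ≤
      c1 * II n * volume (Metric.closedBall (0 : E n) ε) *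
        ∫⁻ c in C.D, ENNReal.ofReal √(C.G c).det := by
  rw [lintegral_lintegral_swap (Kg2_aem bd C hc ε)]
  set V : ENNReal := volume (Metric.closedBall (0 : E n) ε) with hV
  have h1 : ∀ᵐ z ∂((volume : Measure (ℝ × E n)).restrict (sd C)),
      ∫⁻ η : E n, Kf C z * gf2 bd C ε η z ≤
        (c1 * V) * (ENNReal.ofReal (z.1 ^ n * Real.exp (-(z.1 ^ 2) / 2)) *
          ENNReal.ofReal √(C.G z.2).det) := by
    filter_upwards [ae_restrict_mem (sd_meas C)] with z hzs
    have hz1 : (0 : ℝ) < z.1 := hzs.1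
    have hgood : Good z.1 (fun G : E n => z.1 * UU bd (C.map z.2) G) := by
      have h := hU (C.map z.2)
      refine ⟨fun x y => ?_, fun t x ht => ?_⟩
      · rw [← mul_sub, abs_mul, abs_of_pos hz1]
        have := h.lip x y
        rw [one_mul] at this
        exact mul_le_mul_of_nonneg_left this hz1.le
      · rw [h.hom t x ht]; ring
    have hp := hPP n z.1 (fun G : E n => z.1 * UU bd (C.map z.2) G) hz1.le hgood ε hε
    have hp' : ∫⁻ η : E n, gf2 bd C ε η z ≤
        ENNReal.ofReal (Real.exp (-(z.1 ^ 2) / 2 - 1 / 2)) * V := hp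
    rw [lintegral_const_mul' _ _ (by unfold Kf; exact ENNReal.ofReal_ne_top)]
    calc Kf C z * ∫⁻ η : E n, gf2 bd C ε η z ≤
        Kf C z * (ENNReal.ofReal (Real.exp (-(z.1 ^ 2) / 2 - 1 / 2)) * V) := by gcongr
      _ = _ := by
          unfold Kf c1
          rw [show (√3)⁻¹ * z.1 ^ n * √(C.G z.2).det = ((√3)⁻¹ * z.1 ^ n) * √(C.G z.2).det by ring,
            ENNReal.ofReal_mul (by positivity : (0:ℝ) ≤ (√3)⁻¹ * z.1 ^ n),
            ENNReal.ofReal_mul (by positivity : (0:ℝ) ≤ (√3)⁻¹),
            ENNReal.ofReal_mul (by positivity : (0:ℝ) ≤ (√3)⁻¹),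
            ENNReal.ofReal_mul (by positivity : (0:ℝ) ≤ z.1 ^ n),
            show -(z.1 ^ 2) / 2 - 1 / 2 = -(z.1 ^ 2) / 2 + -(1 / 2) by ring, Real.exp_add,
            ENNReal.ofReal_mul (Real.exp_pos _).le]
          ring
  refine (lintegral_mono_ae h1).trans ?_
  have hfin : c1 * V ≠ ⊤ :=
    ENNReal.mul_ne_top (by unfold c1; exact ENNReal.ofReal_ne_top) (measure_closedBall_lt_top.ne)
  rw [lintegral_const_mul' _ _ hfin]
  have e : (volume : Measure (ℝ × E n)).restrict (sd C) =
      ((volume : Measure ℝ).restrict (Ioi 0)).prod ((volume : Measure (E n)).restrict C.D) := by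
    rw [Measure.prod_restrict]
    rfl
  rw [e, lintegral_prod_mul
    (f := fun R : ℝ => ENNReal.ofReal (R ^ n * Real.exp (-(R ^ 2) / 2)))
    (g := fun c : E n => ENNReal.ofReal √(C.G c).det)]
  · refine le_of_eq ?_
    show c1 * V * (II n * _) = c1 * II n * V * _
    ring
  · have h : Continuous (fun R : ℝ => ENNReal.ofReal (R ^ n * Real.exp (-(R ^ 2) / 2))) := by
      refine ENNReal.continuous_ofReal.comp ?_
      fun_prop
    exact h.aemeasurable
  · exact AEMeasurable.ennreal_ofReal ((cont_det C).aemeasurable C.meas_D)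


end Pool.Agent.U958.FV
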