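import Pool.Agent.U958.FV.As1

/-!
# Assembly, part 2
-/

set_option autoImplicit false

open MeasureTheory InnerProductGeometry Set Filter Topology

namespace Pool.Agent.U958.FV

open Pool.Agent.W716.FV
open Pool.Agent.H241R3.FV (Sph ext RChart Fill Triang gnorm)
open Pool.Agent.W716.FV.Asm (map_contOn fm fm_cont sd sd_meas sd_sub fm_aem2 fm_aem fm_jac Kf
  cont_det Kf_aem II c1 Om Om_meas cov)

attribute [local irreducible] SS TT UU

theorem area2 (hAR : AreaIneq) (hJA : Jac) (hNU : NullPsi) {n : ℕ} (hn : 0 < n) (M : Type)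
    [MetricSpace M] (bd : Sph n → M)
    (hbd : ∀ x y : Sph n, angle (x : E n) (y : E n) ≤ dist (bd x) (bd y))
    (hc : Continuous (fun z : E n × ℝ × M => Psi bd z.1 z.2.1 z.2.2))
    (ι : Type) [Countable ι] (C : ι → RChart n M) (η : E n)
    (hcov : Om n ⊆ ⋃ i, fm bd (C i) η '' sd (C i)) (ε : ℝ) :
    ∫⁻ z in Om n, ENNReal.ofReal (wt2 ε η z) ≤
      ∑' i, ∫⁻ z in sd (C i), Kf (C i) z * gf2 bd (C i) ε η z := by
  have hwm : Measurable (fun z : ℝ × E n => ENNReal.ofReal (wt2 ε η z)) := by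
    have h1 : Measurable fun z : ℝ × E n => (η, z) := by fun_prop
    have h2 := (meas_wt2 n ε).comp h1
    exact h2.ennreal_ofReal
  have hhaar : (volume : Measure (ℝ × E n)).IsAddHaarMeasure := by
    have h : ((volume : Measure ℝ).prod (volume : Measure (E n))).IsAddHaarMeasure := inferInstance
    exact h
  have key := hAR (ℝ × E n) volume ι (fun i => sd (C i)) (fun i => fm bd (C i) η) (Om n)
    (fun z => ENNReal.ofReal (wt2 ε η z)) (fun i => sd_meas (C i)) (fun i => fm_aem bd (C i) hc η)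
    (fun i t ht h0 => hNU n hn M bd hbd (C i) η t
      (fun z hz => ⟨(ht hz).1, (C i).D_sub (ht hz).2⟩) h0)
    (by
      intro i
      filter_upwards [fm_jac hJA hn bd hbd (C i)] with z hz hzs
      obtain ⟨L, hL, -⟩ := hz hzs η
      exact hL.differentiableAt)
    (Om_meas n) hwm hcov
  refine key.trans (ENNReal.tsum_le_tsum fun i => ?_)
  refine lintegral_mono_ae ?_
  filter_upwards [ae_restrict_of_ae (fm_jac hJA hn bd hbd (C i)),
    ae_restrict_mem (sd_meas (C i))] with z hz hzs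
  obtain ⟨L, hL, hL2⟩ := hz hzs η
  rw [hL.fderiv]
  unfold Kf gf2
  have hz1 : (0 : ℝ) < z.1 := hzs.1
  rw [← ENNReal.ofReal_mul (abs_nonneg _), ← ENNReal.ofReal_mul (by positivity)]
  refine ENNReal.ofReal_le_ofReal ?_
  calc |L.det| * wt2 ε η (fm bd (C i) η z) ≤
      ((√3)⁻¹ * Real.exp ((fm bd (C i) η z).1 - 1 / 2) * z.1 ^ n *
        √((C i).G z.2).det) * wt2 ε η (fm bd (C i) η z) :=
          mul_le_mul_of_nonneg_right hL2 (wt2_nonneg _ _ _)
    _ = _ := by ring

theorem total2 (hPP : PerP2) (hAR : AreaIneq) (hUF : UFacts) (hPF : PsiFacts) (hJA : Jac)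
    (hNU : NullPsi) (hCV : Cover) (d : ℕ) (hd : 1 ≤ d) (M : Type) [MetricSpace M]
    [CompactSpace M] (S : Fill d M) (hS : S.NonShort) (hT : S.Triangulated) (ε : ℝ) (hε : 0 < ε) :
    ∫⁻ η : E (d + 1), ∫⁻ z in Om (d + 1), ENNReal.ofReal (wt2 ε η z) ≤
      c1 * II (d + 1) * volume (Metric.closedBall (0 : E (d + 1)) ε) * S.vol := by
  have hn : 0 < d + 1 := Nat.succ_pos d
  obtain ⟨uf1, -, -, -, -⟩ := hUF (d + 1) hn M S.bd hS
  obtain ⟨-, -, -, -, pf5, -⟩ := hPF (d + 1) hn M S.bd hS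
  have := S.countable
  calc ∫⁻ η : E (d + 1), ∫⁻ z in Om (d + 1), ENNReal.ofReal (wt2 ε η z)
      ≤ ∫⁻ η : E (d + 1), ∑' i, ∫⁻ z in sd (S.chart i),
          Kf (S.chart i) z * gf2 S.bd (S.chart i) ε η z :=
        lintegral_mono fun η => area2 hAR hJA hNU hn M S.bd hS pf5 S.ι S.chart η
          (cov hPF hCV d hd M S hS hT η) ε
    _ = ∑' i, ∫⁻ η : E (d + 1), ∫⁻ z in sd (S.chart i),
          Kf (S.chart i) z * gf2 S.bd (S.chart i) ε η z := by
        rw [lintegral_tsum]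
        intro i
        exact (Kg2_aem S.bd (S.chart i) pf5 ε).lintegral_prod_right'
    _ ≤ ∑' i, c1 * II (d + 1) * volume (Metric.closedBall (0 : E (d + 1)) ε) *
          ∫⁻ c in (S.chart i).D, ENNReal.ofReal √((S.chart i).G c).det :=
        ENNReal.tsum_le_tsum fun i => chart_bound2 hPP S.bd uf1 (S.chart i) pf5 ε hε
    _ = c1 * II (d + 1) * volume (Metric.closedBall (0 : E (d + 1)) ε) * S.vol := by
        rw [ENNReal.tsum_mul_left]
        rfl

theorem main2 (hPP : PerP2) (hGL : GaussLower2) (hRC : RadialConst)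
    (hNF : NumFinal2) (hAR : AreaIneq) (hUF : UFacts) (hPF : PsiFacts) (hJA : Jac)
    (hNU : NullPsi) (hCV : Cover) : Main2 := by
  intro d hd M _ _ S hS hT
  have hmain := total2 hPP hAR hUF hPF hJA hNU hCV d hd M S hS hT (1 / 20) (by norm_num)
  have hlow := hGL (d + 1) (1 / 20) (by norm_num) (by norm_num)
  have hσ := hRC (d + 1)
  generalize hA : √(2 * Real.pi) ^ (d + 1) * (178 / 1000) = A at hlow
  have h2 : ENNReal.ofReal A * volume (Metric.closedBall (0 : E (d + 1)) (1 / 20)) ≤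
      c1 * II (d + 1) * volume (Metric.closedBall (0 : E (d + 1)) (1 / 20)) * S.vol :=
    hlow.trans hmain
  have hV0 : volume (Metric.closedBall (0 : E (d + 1)) (1 / 20)) ≠ 0 :=
    (Metric.measure_closedBall_pos volume (0 : E (d + 1)) (by norm_num)).ne'
  have hVt : volume (Metric.closedBall (0 : E (d + 1)) (1 / 20)) ≠ ⊤ :=
    measure_closedBall_lt_top.ne
  generalize volume (Metric.closedBall (0 : E (d + 1)) (1 / 20)) = V at h2 hV0 hVt
  have h3 : ENNReal.ofReal A ≤ c1 * II (d + 1) * S.vol := by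
    have h : ENNReal.ofReal A * V ≤ (c1 * II (d + 1) * S.vol) * V := by
      refine h2.trans (le_of_eq ?_)
      ring
    exact (ENNReal.mul_le_mul_iff_left hV0 hVt).1 h
  have hσ' : (volume : Measure (E (d + 1 + 1))).toSphere Set.univ * II (d + 1) =
      ENNReal.ofReal (√(2 * Real.pi) ^ (d + 1 + 1)) := hσ
  show ENNReal.ofReal (1 / 5) * (volume : Measure (E (d + 1 + 1))).toSphere Set.univ ≤ S.vol
  generalize (volume : Measure (E (d + 1 + 1))).toSphere Set.univ = σ at hσ' ⊢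
  have hpos : (0 : ℝ) < √(2 * Real.pi) := Real.sqrt_pos.2 (by positivity)
  have h3pos : (0 : ℝ) < √3 := Real.sqrt_pos.2 (by norm_num)
  have hB : 0 ≤ √3 * Real.exp (1 / 2) / √(2 * Real.pi) ^ (d + 1 + 1) := by positivity
  have hAB : 1 / 5 ≤ √3 * Real.exp (1 / 2) / √(2 * Real.pi) ^ (d + 1 + 1) * A := by
    refine hNF.trans (le_of_eq ?_)
    rw [← hA, pow_succ (√(2 * Real.pi)) (d + 1)]
    field_simp
  calc ENNReal.ofReal (1 / 5) * σ ≤
        ENNReal.ofReal (√3 * Real.exp (1 / 2) / √(2 * Real.pi) ^ (d + 1 + 1) * A) * σ := by gcongr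
    _ = ENNReal.ofReal (√3 * Real.exp (1 / 2) / √(2 * Real.pi) ^ (d + 1 + 1)) *
          (σ * ENNReal.ofReal A) := by
        rw [ENNReal.ofReal_mul hB]; ring
    _ ≤ ENNReal.ofReal (√3 * Real.exp (1 / 2) / √(2 * Real.pi) ^ (d + 1 + 1)) *
          (σ * (c1 * II (d + 1) * S.vol)) := by gcongr
    _ = ENNReal.ofReal (√3 * Real.exp (1 / 2) / √(2 * Real.pi) ^ (d + 1 + 1)) * c1 *
          (σ * II (d + 1)) * S.vol := by ring
    _ = S.vol := by
        unfold c1
        rw [hσ', ← ENNReal.ofReal_mul hB, ← ENNReal.ofReal_mul (by positivity)]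
        have : √3 * Real.exp (1 / 2) / √(2 * Real.pi) ^ (d + 1 + 1) *
            ((√3)⁻¹ * Real.exp (-(1 / 2))) * √(2 * Real.pi) ^ (d + 1 + 1) = 1 := by
          rw [Real.exp_neg]
          field_simp
        rw [this, ENNReal.ofReal_one, one_mul]


end Pool.Agent.U958.FV
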