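import Pool.Agent.U958.FV.Defs

/-!
# Lower bound for the determinant of `A - 1`, `A` symmetric with `|A|² ≤ 4 s / 3`, `s ≤ 1/2`

`∏ (1 - x_i) exp x_i ≥ (1 - a) exp a` if `∑ x_i² ≤ a²`, `0 ≤ a < 1`: the power series of
`-log (1 - x) - x` shows that it is at most `(x²/a²)` times its value at `a`.
-/

set_option autoImplicit false

namespace Pool.Agent.U958.FV

open Pool.Agent.W716.FV

/-- `-log (1 - x) - x ≤ (x / a)² (-log (1 - a) - a)` for `|x| ≤ a < 1` -/
theorem log_cmp {x a : ℝ} (ha0 : 0 < a) (ha1 : a < 1) (hx : |x| ≤ a) :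
    a ^ 2 * (-Real.log (1 - x) - x) ≤ x ^ 2 * (-Real.log (1 - a) - a) := by
  have hx1 : |x| < 1 := lt_of_le_of_lt hx ha1
  have ha2 : |a| < 1 := by rw [abs_of_pos ha0]; exact ha1
  have sx := Real.hasSum_pow_div_log_of_abs_lt_one hx1
  have sa := Real.hasSum_pow_div_log_of_abs_lt_one ha2
  -- drop the first term
  have sx' : HasSum (fun k : ℕ => x ^ (k + 1 + 1) / ((k + 1 : ℕ) + 1 : ℝ))
      (-Real.log (1 - x) - x) := by
    have := (hasSum_nat_add_iff' (f := fun k : ℕ => x ^ (k + 1) / ((k : ℝ) + 1)) 1).2 sx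
    simpa using this
  have sa' : HasSum (fun k : ℕ => a ^ (k + 1 + 1) / ((k + 1 : ℕ) + 1 : ℝ))
      (-Real.log (1 - a) - a) := by
    have := (hasSum_nat_add_iff' (f := fun k : ℕ => a ^ (k + 1) / ((k : ℝ) + 1)) 1).2 sa
    simpa using this
  refine hasSum_le (fun k => ?_) (sx'.mul_left (a ^ 2)) (sa'.mul_left (x ^ 2))
  have hk : (0 : ℝ) < ((k + 1 : ℕ) : ℝ) + 1 := by positivity
  rw [← mul_div_assoc, ← mul_div_assoc]
  refine div_le_div_of_nonneg_right ?_ hk.le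
  have h1 : x ^ (k + 1 + 1) = x ^ 2 * x ^ k := by ring
  have h2 : a ^ (k + 1 + 1) = a ^ 2 * a ^ k := by ring
  have h3 : x ^ k ≤ a ^ k := by
    calc x ^ k ≤ |x ^ k| := le_abs_self _
      _ = |x| ^ k := abs_pow _ _
      _ ≤ a ^ k := pow_le_pow_left₀ (abs_nonneg _) hx k
  rw [h1, h2]
  have h4 : 0 ≤ a ^ 2 * x ^ 2 := by positivity
  nlinarith [mul_le_mul_of_nonneg_left h3 h4]

/-- the product -/
theorem prod_low {ι : Type} [Fintype ι] (x : ι → ℝ) {a : ℝ} (ha0 : 0 < a) (ha1 : a < 1)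
    (hs : ∑ i, x i ^ 2 ≤ a ^ 2) :
    Real.exp (-∑ i, x i) * ((1 - a) * Real.exp a) ≤ ∏ i, |x i - 1| := by
  have hxa : ∀ i, |x i| ≤ a := fun i => by
    have h1 : x i ^ 2 ≤ a ^ 2 := le_trans (Finset.single_le_sum (f := fun i => x i ^ 2)
      (fun j _ => sq_nonneg _) (Finset.mem_univ i)) hs
    exact abs_le_of_sq_le_sq h1 ha0.le
  have hpos : ∀ i, 0 < 1 - x i := fun i => by
    have := (abs_le.1 (hxa i)).2
    linarith
  set H : ℝ := -Real.log (1 - a) - a with hH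
  have hH0 : 0 ≤ H := by
    have := Real.log_le_sub_one_of_pos (show (0 : ℝ) < 1 - a by linarith)
    rw [hH]; linarith
  have h1 : ∀ i, -x i - x i ^ 2 / a ^ 2 * H ≤ Real.log (1 - x i) := by
    intro i
    have h2 := log_cmp ha0 ha1 (hxa i)
    have h3 : x i ^ 2 / a ^ 2 * H = (x i ^ 2 * H) / a ^ 2 := by ring
    have h4 : -Real.log (1 - x i) - x i ≤ (x i ^ 2 * H) / a ^ 2 := by
      rw [le_div_iff₀ (by positivity)]
      linarith
    rw [h3]
    linarith
  have h5 : -(∑ i, x i) - H ≤ ∑ i, Real.log (1 - x i) := by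
    calc -(∑ i, x i) - H ≤ -(∑ i, x i) - (∑ i, x i ^ 2) / a ^ 2 * H := by
          have : (∑ i, x i ^ 2) / a ^ 2 ≤ 1 := by
            rw [div_le_one (by positivity)]
            exact hs
          nlinarith
      _ = ∑ i, (-x i - x i ^ 2 / a ^ 2 * H) := by
          rw [Finset.sum_sub_distrib, Finset.sum_neg_distrib, ← Finset.sum_mul,
            Finset.sum_div]
      _ ≤ _ := Finset.sum_le_sum fun i _ => h1 i
  have h6 : ∏ i, |x i - 1| = Real.exp (∑ i, Real.log (1 - x i)) := by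
    rw [Real.exp_sum]
    refine Finset.prod_congr rfl fun i _ => ?_
    rw [Real.exp_log (hpos i), abs_sub_comm, abs_of_pos (hpos i)]
  rw [h6]
  have h7 : (1 - a) * Real.exp a = Real.exp (-H) := by
    rw [hH, neg_sub, sub_neg_eq_add, Real.exp_add, Real.exp_log (by linarith)]
    ring
  rw [h7, ← Real.exp_add]
  exact Real.exp_le_exp.2 (by linarith)

/-- polynomial minorant of `(1 - a) exp a` -/
theorem poly_low {a : ℝ} (ha0 : 0 ≤ a) (ha1 : a ^ 2 ≤ 2 / 3) :
    1 - 3 / 5 * a ^ 2 - 279 / 640 * a ^ 4 ≤ (1 - a) * Real.exp a := by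
  have ha2 : a ≤ 41 / 50 := by nlinarith
  have h1 : 1 + a + a ^ 2 / 2 + a ^ 3 / 6 + a ^ 4 / 24 + a ^ 5 / 120 ≤ Real.exp a := by
    have := Real.sum_le_exp_of_nonneg ha0 6
    simp only [Finset.sum_range_succ, Finset.sum_range_zero, Nat.factorial] at this
    norm_num at this
    linarith
  have h2 : (1 - a) * (1 + a + a ^ 2 / 2 + a ^ 3 / 6 + a ^ 4 / 24 + a ^ 5 / 120) ≤
      (1 - a) * Real.exp a := mul_le_mul_of_nonneg_left h1 (by linarith)
  refine le_trans ?_ h2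
  -- difference is `a² (1/10 - a/3 + (279/640 - 1/8) a² - a³/30 - a⁴/120)`
  have h3 : (1 - a) * (1 + a + a ^ 2 / 2 + a ^ 3 / 6 + a ^ 4 / 24 + a ^ 5 / 120) -
      (1 - 3 / 5 * a ^ 2 - 279 / 640 * a ^ 4) =
      a ^ 2 * (1 / 10 - a / 3 + 199 / 640 * a ^ 2 - a ^ 3 / 30 - a ^ 4 / 120) := by ring
  have h4 : 0 ≤ 1 / 10 - a / 3 + 199 / 640 * a ^ 2 - a ^ 3 / 30 - a ^ 4 / 120 := by
    have h5 : 0 ≤ a ^ 3 * (41 / 50 - a) := mul_nonneg (by positivity) (by linarith)
    -- `a⁴ ≤ 41/50 a³`; then a cubic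
    have h6 : 0 ≤ 1 / 10 - a / 3 + 199 / 640 * a ^ 2 - (1 / 30 + 41 / 6000) * a ^ 3 := by
      nlinarith [mul_nonneg ha0 (sq_nonneg (a - 3 / 5)), sq_nonneg (a - 3 / 5),
        sq_nonneg (a - 1 / 2)]
    nlinarith
  have h7 : 0 ≤ a ^ 2 * (1 / 10 - a / 3 + 199 / 640 * a ^ 2 - a ^ 3 / 30 - a ^ 4 / 120) :=
    mul_nonneg (sq_nonneg a) h4
  linarith

theorem detLower2 : DetLower2 := by
  intro n A s hA hs hs1
  set T : E n →ₗ[ℝ] E n := (A : E n →ₗ[ℝ] E n) with hTdef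
  have hT : T.IsSymmetric := by
    intro v w
    have h := hA v w
    rw [real_inner_comm] at h
    rw [real_inner_comm] at h
    exact h.trans (real_inner_comm _ _)
  have hn : Module.finrank ℝ (E n) = n := by simp
  set ev := hT.eigenvalues hn with hev
  set b := hT.eigenvectorBasis hn with hb
  have hsq : ∑ i, ‖A (EuclideanSpace.single i 1)‖ ^ 2 = ∑ i, ev i ^ 2 := by
    have h1 := LinearMap.trace_eq_sum_inner (T ∘ₗ T) (EuclideanSpace.basisFun (Fin n) ℝ)
    have h2 := LinearMap.trace_eq_sum_inner (T ∘ₗ T) b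
    have h3 : ∑ i, ‖A (EuclideanSpace.single i 1)‖ ^ 2 = LinearMap.trace ℝ (E n) (T ∘ₗ T) := by
      rw [h1]
      refine Finset.sum_congr rfl (fun i _ => ?_)
      rw [LinearMap.comp_apply, ← hT, EuclideanSpace.basisFun_apply, real_inner_self_eq_norm_sq]
      rfl
    rw [h3, h2]
    refine Finset.sum_congr rfl (fun i _ => ?_)
    rw [LinearMap.comp_apply, ← hT, hT.apply_eigenvectorBasis hn i, real_inner_self_eq_norm_sq,
      norm_smul, mul_pow]
    rw [(hT.eigenvectorBasis hn).norm_eq_one]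
    simp [hev]
  have htr : LinearMap.trace ℝ (E n) T = ∑ i, ev i := by
    have := hT.trace_eq_sum_eigenvalues hn
    simpa using this
  have hdet : (A - ContinuousLinearMap.id ℝ (E n)).det = ∏ i, (ev i - 1) := by
    rw [ContinuousLinearMap.det]
    have h1 : ((A - ContinuousLinearMap.id ℝ (E n) : E n →L[ℝ] E n) : E n →ₗ[ℝ] E n) =
        T - LinearMap.id := by
      ext v; simp [hTdef]
    rw [h1, ← LinearMap.det_toMatrix b.toBasis, map_sub, LinearMap.toMatrix_id,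
      hT.toMatrix_eigenvectorBasis hn]
    rw [← Matrix.diagonal_one, Matrix.diagonal_sub, Matrix.det_diagonal]
    rfl
  rw [htr, hdet, Finset.abs_prod]
  rw [hsq] at hs
  have hs0 : 0 ≤ s := by
    have : 0 ≤ ∑ i, ev i ^ 2 := Finset.sum_nonneg fun i _ => sq_nonneg _
    linarith
  rcases hs0.eq_or_lt with h0 | h0
  · -- `s = 0`
    rw [← h0] at hs ⊢
    have hz : ∀ i, ev i = 0 := by
      intro i
      have h1 : ev i ^ 2 ≤ 4 / 3 * 0 := le_trans (Finset.single_le_sum (f := fun i => ev i ^ 2)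
        (fun j _ => sq_nonneg _) (Finset.mem_univ i)) hs
      have h2 : ev i ^ 2 = 0 := le_antisymm (by linarith) (sq_nonneg _)
      exact pow_eq_zero_iff (two_ne_zero) |>.1 h2
    simp [hz]
  · set a : ℝ := √(4 / 3 * s) with ha
    have ha0 : 0 < a := Real.sqrt_pos.2 (by linarith)
    have ha2 : a ^ 2 = 4 / 3 * s := Real.sq_sqrt (by linarith)
    have ha1 : a < 1 := by nlinarith
    have h1 := prod_low ev ha0 ha1 (by rw [ha2]; exact hs)
    refine le_trans ?_ h1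
    refine mul_le_mul_of_nonneg_left ?_ (Real.exp_pos _).le
    refine le_trans (le_of_eq ?_) (poly_low ha0.le (by rw [ha2]; linarith))
    have h4 : a ^ 4 = (4 / 3 * s) ^ 2 := by rw [← ha2]; ring
    rw [h4, ha2]
    ring

end Pool.Agent.U958.FV
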