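import Pool.Agent.W716.FV.StmB

/-!
# The constant `2/5` in the filling volume inequality for round spheres: weight and statements

The scheme and all maps are those of `Pool.Agent.W716.FV` (the constant `1/5`).  New are the sharp
weight `phi`, the range `S ≤ 1/2` in place of `S ≤ 27/200`, and the way in which both are obtained
(`HS2`, `DetLower2`, `Overlap2`, `KappaNum2`, `Inject2`).
-/

set_option autoImplicit false

open MeasureTheory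

namespace Pool.Agent.U958.FV

open Pool.Agent.W716.FV

/-- the weight of the first coordinate -/
noncomputable def phi (s : ℝ) : ℝ := Real.exp (-4 * s) * (1 - 4 / 5 * s - 31 / 40 * s ^ 2)

/-- the weight `1[|τ| ≤ ε, 0 ≤ s ≤ 1/2] exp(-|η|²/2 - ⟨τ,η⟩) phi s` at `z = (s, τ)` -/
noncomputable def wt2 {n : ℕ} (ε : ℝ) (η : E n) (z : ℝ × E n) : ℝ :=
  open Classical in
  if ‖z.2‖ ≤ ε ∧ 0 ≤ z.1 ∧ z.1 ≤ 1 / 2 then
    Real.exp (-‖η‖ ^ 2 / 2 - inner ℝ z.2 η) * phi z.1 else 0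

/-- the Hilbert-Schmidt norm of `A` in terms of `S` -/
def HS2 : Prop :=
  ∀ (n : ℕ) (R : ℝ) (u : E n → ℝ), 0 ≤ R → Good R u → ∀ η : E n,
    ∑ i, ‖AA u η (EuclideanSpace.single i 1)‖ ^ 2 ≤ 4 / 3 * SS R u η

/-- lower bound for a determinant -/
def DetLower2 : Prop :=
  ∀ (n : ℕ) (A : E n →L[ℝ] E n) (s : ℝ),
    (∀ v w : E n, (inner ℝ (A v) w : ℝ) = inner ℝ (A w) v) →
    ∑ i, ‖A (EuclideanSpace.single i 1)‖ ^ 2 ≤ 4 / 3 * s → s ≤ 1 / 2 →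
    Real.exp (-(LinearMap.trace ℝ (E n) (A : E n →ₗ[ℝ] E n))) *
      (1 - 4 / 5 * s - 31 / 40 * s ^ 2) ≤ |(A - ContinuousLinearMap.id ℝ (E n)).det|

/-- shifted Gaussians: the difference of the means of `V` -/
def Overlap2 : Prop :=
  ∀ (n : ℕ) (V : E n → E n) (K : ℝ), Measurable V → (∀ x, ‖V x‖ ≤ K) →
    ∀ (c₁ c₂ η₁ η₂ : E n) (l : ℝ),
    2 * l * inner ℝ ((∫ x, V (x + c₂) ∂(gam n)) - ∫ x, V (x + c₁) ∂(gam n)) (η₂ - η₁) ≤
      (∫ x, ‖V (x + c₁) - η₁‖ ^ 2 ∂(gam n)) + (∫ x, ‖V (x + c₂) - η₂‖ ^ 2 ∂(gam n)) +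
        (l + 1 / 2) ^ 2 * ‖η₂ - η₁‖ ^ 2 * (2 - 2 * Real.exp (-‖c₂ - c₁‖ ^ 2 / 4)) -
        ‖η₂ - η₁‖ ^ 2 / 2

/-- numerical inequality for the law of `κ` -/
def KappaNum2 : Prop :=
  ∀ y : ℝ, 0 < y →
    4 < 6 * (∫ κ, Real.exp (-(y * κ ^ 2)) ∂nu) ^ 2 +
      y * ∫ κ, (1 + κ ^ 2) * Real.exp (-(y * κ ^ 2)) ∂nu

/-- injectivity of `T` on the set `S ≤ 1/2` -/
def Inject2 : Prop :=
  ∀ (n : ℕ) (R : ℝ) (u : E n → ℝ), 0 ≤ R → Good R u → ∀ η₁ η₂ : E n,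
    SS R u η₁ ≤ 1 / 2 → SS R u η₂ ≤ 1 / 2 → TT u η₁ = TT u η₂ → η₁ = η₂

/-- the estimate for a fixed point of the cone -/
def PerP2 : Prop :=
  ∀ (n : ℕ) (R : ℝ) (u : E n → ℝ), 0 ≤ R → Good R u → ∀ ε : ℝ, 0 < ε →
    ∫⁻ η : E n, ENNReal.ofReal (wt2 ε η (SS R u η, TT u η) * Real.exp (SS R u η - 1 / 2)) ≤
      ENNReal.ofReal (Real.exp (-(R ^ 2) / 2 - 1 / 2)) *
        volume (Metric.closedBall (0 : E n) ε)

/-- lower bound for the integral of the weights over the region above the paraboloid -/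
def GaussLower2 : Prop :=
  ∀ (n : ℕ) (ε : ℝ), 0 < ε → ε ≤ 1 / 20 →
    ENNReal.ofReal (√(2 * Real.pi) ^ n * (178 / 1000)) *
      volume (Metric.closedBall (0 : E n) ε) ≤
    ∫⁻ η : E n, ∫⁻ z in {z : ℝ × E n | ‖z.2‖ ^ 2 / 6 < z.1}, ENNReal.ofReal (wt2 ε η z)

/-- numerical constant -/
def NumFinal2 : Prop :=
  1 / 5 ≤ √3 * Real.exp (1 / 2) * (178 / 1000) / √(2 * Real.pi)

/-- the main statement: constant `2/5` (`toSphere univ` is the volume of the sphere, twice the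
volume of the hemisphere) -/
def Main2 : Prop :=
  ∀ (d : ℕ), 1 ≤ d → ∀ (M : Type) [MetricSpace M] [CompactSpace M]
    (S : Pool.Agent.H241R3.FV.Fill d M), S.NonShort → S.Triangulated →
    ENNReal.ofReal (1 / 5) *
      (volume : Measure (EuclideanSpace ℝ (Fin (d + 2)))).toSphere Set.univ ≤ S.vol

end Pool.Agent.U958.FV
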