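import Pool.Agent.U958.FV.Defs
import Pool.Agent.W925.FV.IN

/-! # Injectivity of `T` on the set `S ≤ 1/2` -/

set_option autoImplicit false

namespace Pool.Agent.U958.FV

open MeasureTheory Pool.Agent.W716.FV Pool.Agent.W925.FV.IN

theorem inject2 (hKM : KappaMoments) (hPM : PMoments) (hGF : GoodFacts) (hXI : XIdent)
    (hOV : Overlap2) (hKN : KappaNum2) : Inject2 := by
  intro n R u hR hu η₁ η₂ hS₁ hS₂ hT
  obtain ⟨pnu, -, -, hk2, -, hk6⟩ := hKM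
  obtain ⟨pP, hPint, -⟩ := hPM n
  obtain ⟨hV, -, hVm, -, -, -⟩ := hGF n R u hR hu
  have := pnu
  have := pP
  have : SFinite (gam n) := by
    unfold gam
    infer_instance
  set V : E n → E n := gr u with hVdef
  -- integrability on the product
  have hf : ∀ η : E n, Integrable (fun w : E n × ℝ => (1 + w.2 ^ 2) * ‖V (xi η w) - η‖ ^ 2)
      (P n) := by
    intro η
    obtain ⟨h1, h2, -⟩ := hXI n R u hR hu η
    refine h2.mono' ?_ (Filter.Eventually.of_forall fun w => ?_)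
    · refine Measurable.aestronglyMeasurable ?_
      have h3 : Measurable (fun w : E n × ℝ => V (xi η w)) := hVm.comp (meas_xi η)
      exact Measurable.mul (by fun_prop) (((h3.sub_const η).norm).pow_const 2)
    · rw [Real.norm_of_nonneg (by positivity)]
      exact mul_le_mul_of_nonneg_left (h1 w) (by positivity)
  have hJi : ∀ η : E n, Integrable (fun k : ℝ => (1 + k ^ 2) * YY V η k) nu := by
    intro η
    have h1 := (hf η).integral_prod_right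
    refine h1.congr (Filter.Eventually.of_forall fun k => ?_)
    change ∫ x, (1 + k ^ 2) * ‖V (xi η (x, k)) - η‖ ^ 2 ∂(gam n) = _
    rw [integral_const_mul]
    rfl
  have hJ : ∀ η : E n, ∫ k, (1 + k ^ 2) * YY V η k ∂nu ≤ 8 * SS R u η := by
    intro η
    obtain ⟨h1, h2, -, -, h5⟩ := hXI n R u hR hu η
    rw [← h5]
    have h6 : ∫ w, (1 + w.2 ^ 2) * ‖V (xi η w) - η‖ ^ 2 ∂(P n) =
        ∫ k, (1 + k ^ 2) * YY V η k ∂nu := by
      unfold P
      rw [integral_prod_symm _ (hf η)]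
      refine integral_congr_ae (Filter.Eventually.of_forall fun k => ?_)
      change ∫ x, (1 + k ^ 2) * ‖V (xi η (x, k)) - η‖ ^ 2 ∂(gam n) = _
      rw [integral_const_mul]
      rfl
    rw [← h6]
    exact integral_mono (hf η) h2 fun w => mul_le_mul_of_nonneg_left (h1 w) (by positivity)
  have hJ1 : ∫ k, (1 + k ^ 2) * YY V η₁ k ∂nu ≤ 4 := (hJ η₁).trans (by linarith)
  have hJ2 : ∫ k, (1 + k ^ 2) * YY V η₂ k ∂nu ≤ 4 := (hJ η₂).trans (by linarith)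
  by_contra hne
  set D : E n := η₂ - η₁ with hD
  have hapos : 0 < ‖D‖ := by
    rw [hD, norm_pos_iff, sub_ne_zero]
    exact fun h => hne h.symm
  set y : ℝ := ‖D‖ ^ 2 / 4 with hy
  have hypos : 0 < y := by positivity
  have hc : ∀ k : ℝ, ‖k • η₂ - k • η₁‖ ^ 2 / 4 = y * k ^ 2 := by
    intro k
    rw [← smul_sub, norm_smul, mul_pow, Real.norm_eq_abs, sq_abs, hy]
    ring
  have hVi : ∀ η : E n, Integrable (fun w : E n × ℝ => V (xi η w)) (P n) := by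
    intro η
    refine Integrable.of_bound (hVm.comp (meas_xi η)).aestronglyMeasurable R
      (Filter.Eventually.of_forall fun w => hV _)
  have hW : ∀ η : E n, ∫ w, V (xi η w) ∂(P n) = ∫ k, ∫ x, V (x + k • η) ∂(gam n) ∂nu := by
    intro η
    have h1 := hVi η
    unfold P at h1 ⊢
    rw [integral_prod_symm _ h1]
    rfl
  have hWi : ∀ η : E n, Integrable (fun k : ℝ => ∫ x, V (x + k • η) ∂(gam n)) nu := by
    intro η
    exact (hVi η).integral_prod_right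
  have hdi : Integrable (fun k : ℝ => (∫ x, V (x + k • η₂) ∂(gam n)) -
      ∫ x, V (x + k • η₁) ∂(gam n)) nu := (hWi η₂).sub (hWi η₁)
  have hdiff : D = ∫ k, ((∫ x, V (x + k • η₂) ∂(gam n)) - ∫ x, V (x + k • η₁) ∂(gam n))
      ∂nu := by
    rw [hD, integral_sub (hWi η₂) (hWi η₁), ← hW, ← hW, (hXI n R u hR hu η₂).2.2.1,
      (hXI n R u hR hu η₁).2.2.1, hT]
    abel
  -- integrability of the functions of `κ`
  have hk2i : Integrable (fun κ : ℝ => κ ^ 2) nu := by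
    by_contra hni
    rw [integral_undef hni] at hk2
    norm_num at hk2
  have hk6i : Integrable (fun k : ℝ => k ^ 2 / (1 + k ^ 2)) nu := by
    by_contra hni
    rw [integral_undef hni] at hk6
    norm_num at hk6
  have hexp1 : ∀ κ : ℝ, Real.exp (-(y * κ ^ 2)) ≤ 1 := by
    intro κ
    rw [Real.exp_le_one_iff]
    have : 0 ≤ y * κ ^ 2 := by positivity
    linarith
  have hi0 : Integrable (fun κ : ℝ => Real.exp (-(y * κ ^ 2))) nu := by
    refine (integrable_const (1 : ℝ)).mono' ?_ ?_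
    · exact (Measurable.aestronglyMeasurable (by fun_prop))
    · refine Filter.Eventually.of_forall fun κ => ?_
      rw [Real.norm_of_nonneg (Real.exp_pos _).le]
      exact hexp1 κ
  have hi1 : Integrable (fun κ : ℝ => (1 + κ ^ 2) * Real.exp (-(y * κ ^ 2))) nu := by
    refine ((integrable_const (1 : ℝ)).add hk2i).mono' ?_ ?_
    · exact (Measurable.aestronglyMeasurable (by fun_prop))
    · refine Filter.Eventually.of_forall fun κ => ?_
      rw [Real.norm_of_nonneg (by positivity)]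
      simp only [Pi.add_apply]
      nlinarith [hexp1 κ, sq_nonneg κ]
  have hkn := hKN y hypos
  set M0 : ℝ := ∫ κ, Real.exp (-(y * κ ^ 2)) ∂nu with hM0
  set M1 : ℝ := ∫ κ, (1 + κ ^ 2) * Real.exp (-(y * κ ^ 2)) ∂nu with hM1
  set l : ℝ := 3 * M0 / y with hl
  -- the pointwise inequality
  have hpt : ∀ k : ℝ, 2 * l * inner ℝ D ((∫ x, V (x + k • η₂) ∂(gam n)) -
      ∫ x, V (x + k • η₁) ∂(gam n)) ≤
      ((1 + k ^ 2) * YY V η₁ k + (1 + k ^ 2) * YY V η₂ k) +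
      ‖D‖ ^ 2 * (2 * l ^ 2 * y * (k ^ 2 / (1 + k ^ 2)) + 2 * l -
        2 * l * Real.exp (-(y * k ^ 2)) -
        1 / 2 * ((1 + k ^ 2) * Real.exp (-(y * k ^ 2)))) := by
    intro k
    have h1 := hOV n V R hVm hV (k • η₁) (k • η₂) η₁ η₂ (l / (1 + k ^ 2))
    have h2 : -‖k • η₂ - k • η₁‖ ^ 2 / 4 = -(y * k ^ 2) := by
      rw [← hc k]; ring
    rw [h2, ← hD, real_inner_comm] at h1
    have h3 : (∫ x, ‖V (x + k • η₁) - η₁‖ ^ 2 ∂(gam n)) = YY V η₁ k := rfl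
    have h4 : (∫ x, ‖V (x + k • η₂) - η₂‖ ^ 2 ∂(gam n)) = YY V η₂ k := rfl
    rw [h3, h4] at h1
    set I : ℝ := inner ℝ D ((∫ x, V (x + k • η₂) ∂(gam n)) -
      ∫ x, V (x + k • η₁) ∂(gam n)) with hI
    set w : ℝ := Real.exp (-(y * k ^ 2)) with hw
    set Y1 : ℝ := YY V η₁ k
    set Y2 : ℝ := YY V η₂ k
    have hD0 : (0 : ℝ) < 1 + k ^ 2 := by positivity
    have h5 := mul_le_mul_of_nonneg_left h1 hD0.le
    have h6 : (1 + k ^ 2) * (2 * (l / (1 + k ^ 2)) * I) = 2 * l * I := by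
      field_simp
    have h7 : (1 + k ^ 2) * (Y1 + Y2 + (l / (1 + k ^ 2) + 1 / 2) ^ 2 * ‖D‖ ^ 2 *
        (2 - 2 * w) - ‖D‖ ^ 2 / 2) = ((1 + k ^ 2) * Y1 + (1 + k ^ 2) * Y2) +
        ‖D‖ ^ 2 * (2 * l ^ 2 * ((1 - w) / (1 + k ^ 2)) + 2 * l - 2 * l * w -
          1 / 2 * ((1 + k ^ 2) * w)) := by
      field_simp
      ring
    rw [h6, h7] at h5
    refine h5.trans ?_
    have h8 : (1 - w) / (1 + k ^ 2) ≤ y * (k ^ 2 / (1 + k ^ 2)) := by
      rw [← mul_div_assoc]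
      refine div_le_div_of_nonneg_right ?_ hD0.le
      have := Real.add_one_le_exp (-(y * k ^ 2))
      rw [← hw] at this
      linarith
    have h9 : 2 * l ^ 2 * ((1 - w) / (1 + k ^ 2)) ≤ 2 * l ^ 2 * y * (k ^ 2 / (1 + k ^ 2)) := by
      rw [mul_assoc (2 * l ^ 2)]
      exact mul_le_mul_of_nonneg_left h8 (by positivity)
    have h10 : 0 ≤ ‖D‖ ^ 2 := by positivity
    have h11 := mul_le_mul_of_nonneg_left h9 h10
    linarith
  -- integrate
  have hLi : Integrable (fun k : ℝ => 2 * l * inner ℝ D ((∫ x, V (x + k • η₂) ∂(gam n)) -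
      ∫ x, V (x + k • η₁) ∂(gam n))) nu := (hdi.const_inner D).const_mul _
  have hJs : Integrable (fun k : ℝ => (1 + k ^ 2) * YY V η₁ k + (1 + k ^ 2) * YY V η₂ k) nu :=
    (hJi η₁).add (hJi η₂)
  have hQ1 : Integrable (fun k : ℝ => 2 * l ^ 2 * y * (k ^ 2 / (1 + k ^ 2)) + 2 * l) nu :=
    (hk6i.const_mul _).add (integrable_const _)
  have hQ2 : Integrable (fun k : ℝ => 2 * l ^ 2 * y * (k ^ 2 / (1 + k ^ 2)) + 2 * l -
      2 * l * Real.exp (-(y * k ^ 2))) nu := hQ1.sub (hi0.const_mul _)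
  have hQ3 : Integrable (fun k : ℝ => 2 * l ^ 2 * y * (k ^ 2 / (1 + k ^ 2)) + 2 * l -
      2 * l * Real.exp (-(y * k ^ 2)) -
      1 / 2 * ((1 + k ^ 2) * Real.exp (-(y * k ^ 2)))) nu := hQ2.sub (hi1.const_mul _)
  have hmain := integral_mono hLi (hJs.add (hQ3.const_mul (‖D‖ ^ 2))) hpt
  have hL : ∫ k, 2 * l * inner ℝ D ((∫ x, V (x + k • η₂) ∂(gam n)) -
      ∫ x, V (x + k • η₁) ∂(gam n)) ∂nu = 2 * l * ‖D‖ ^ 2 := by
    rw [integral_const_mul, integral_inner hdi, ← hdiff, real_inner_self_eq_norm_sq]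
  have hRt : ∫ k, (((1 + k ^ 2) * YY V η₁ k + (1 + k ^ 2) * YY V η₂ k) +
      ‖D‖ ^ 2 * (2 * l ^ 2 * y * (k ^ 2 / (1 + k ^ 2)) + 2 * l -
        2 * l * Real.exp (-(y * k ^ 2)) -
        1 / 2 * ((1 + k ^ 2) * Real.exp (-(y * k ^ 2))))) ∂nu =
      (∫ k, (1 + k ^ 2) * YY V η₁ k ∂nu) + (∫ k, (1 + k ^ 2) * YY V η₂ k ∂nu) +
      ‖D‖ ^ 2 * (2 * l ^ 2 * y * (1 / 6) + 2 * l - 2 * l * M0 - 1 / 2 * M1) := by
    have q4 : ∫ k, 1 / 2 * ((1 + k ^ 2) * Real.exp (-(y * k ^ 2))) ∂nu = 1 / 2 * M1 :=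
      integral_const_mul _ _
    have q3 : ∫ k, 2 * l * Real.exp (-(y * k ^ 2)) ∂nu = 2 * l * M0 := integral_const_mul _ _
    have q2 : ∫ k : ℝ, 2 * l ^ 2 * y * (k ^ 2 / (1 + k ^ 2)) ∂nu = 2 * l ^ 2 * y * (1 / 6) := by
      rw [integral_const_mul, hk6]
    have q1 : ∫ _ : ℝ, 2 * l ∂nu = 2 * l := by simp
    have r3 : ∫ k, (2 * l ^ 2 * y * (k ^ 2 / (1 + k ^ 2)) + 2 * l) ∂nu =
        2 * l ^ 2 * y * (1 / 6) + 2 * l := by
      rw [integral_add (hk6i.const_mul _) (integrable_const _), q1, q2]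
    have r2 : ∫ k, (2 * l ^ 2 * y * (k ^ 2 / (1 + k ^ 2)) + 2 * l -
        2 * l * Real.exp (-(y * k ^ 2))) ∂nu = 2 * l ^ 2 * y * (1 / 6) + 2 * l - 2 * l * M0 := by
      rw [integral_sub hQ1 (hi0.const_mul _), r3, q3]
    have r1 : ∫ k, (2 * l ^ 2 * y * (k ^ 2 / (1 + k ^ 2)) + 2 * l -
        2 * l * Real.exp (-(y * k ^ 2)) - 1 / 2 * ((1 + k ^ 2) * Real.exp (-(y * k ^ 2)))) ∂nu =
        2 * l ^ 2 * y * (1 / 6) + 2 * l - 2 * l * M0 - 1 / 2 * M1 := by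
      rw [integral_sub hQ2 (hi1.const_mul _), r2, q4]
    rw [integral_add hJs (hQ3.const_mul (‖D‖ ^ 2)), integral_add (hJi η₁) (hJi η₂),
      integral_const_mul, r1]
  rw [hL] at hmain
  have hmain2 : 2 * l * ‖D‖ ^ 2 ≤
      (∫ k, (1 + k ^ 2) * YY V η₁ k ∂nu) + (∫ k, (1 + k ^ 2) * YY V η₂ k ∂nu) +
      ‖D‖ ^ 2 * (2 * l ^ 2 * y * (1 / 6) + 2 * l - 2 * l * M0 - 1 / 2 * M1) :=
    hmain.trans (le_of_eq hRt)
  have hDy : ‖D‖ ^ 2 = 4 * y := by rw [hy]; ring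
  rw [hDy] at hmain2
  have hly : l * y = 3 * M0 := by
    rw [hl]
    field_simp
  have e1 : 4 * y * (2 * l ^ 2 * y * (1 / 6) + 2 * l - 2 * l * M0 - 1 / 2 * M1) =
      4 / 3 * (l * y) ^ 2 + 2 * l * (4 * y) - 8 * (l * y) * M0 - 2 * (y * M1) := by ring
  rw [e1, hly] at hmain2
  nlinarith

end Pool.Agent.U958.FV
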