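import Pool.Agent.U958.FV.Defs
import Pool.Agent.W366.FV.KN

/-!
# The numerical inequality for the law of `κ`
-/

set_option autoImplicit false

open MeasureTheory

namespace Pool.Agent.U958.FV

open Pool.Agent.W716.FV Pool.Agent.W366.FVKN

theorem gauss_low (b : ℝ) (hb : 0 ≤ b) (m : ℕ) (hm : 1 ≤ m) :
    8 / (3 * Real.pi) * √(Real.pi / (b + m)) ≤
      ∫ κ : ℝ, 8 / (3 * Real.pi) / (1 + κ ^ 2) ^ m * Real.exp (-(b * κ ^ 2)) := by
  set c : ℝ := 8 / (3 * Real.pi) with hc'
  have hc : 0 < c := by positivity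
  have hm0 : (0 : ℝ) < m := by exact_mod_cast hm
  have hbm : 0 < b + m := by linarith
  have hI : ∫ κ : ℝ, c * Real.exp (-(b + m) * κ ^ 2) = c * √(Real.pi / (b + m)) := by
    rw [integral_const_mul, integral_gaussian]
  rw [← hI]
  have hpt : ∀ κ : ℝ, c * Real.exp (-(b + m) * κ ^ 2) ≤
      c / (1 + κ ^ 2) ^ m * Real.exp (-(b * κ ^ 2)) := by
    intro κ
    have h1 : -(b + m) * κ ^ 2 = -(m * κ ^ 2) + -(b * κ ^ 2) := by ring
    rw [h1, Real.exp_add, ← mul_assoc]
    refine mul_le_mul_of_nonneg_right ?_ (Real.exp_pos _).le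
    rw [div_eq_mul_inv]
    refine mul_le_mul_of_nonneg_left ?_ hc.le
    rw [Real.exp_neg]
    refine inv_anti₀ (by positivity) ?_
    calc (1 + κ ^ 2) ^ m ≤ Real.exp (κ ^ 2) ^ m :=
          pow_le_pow_left₀ (by positivity) (by rw [add_comm]; exact Real.add_one_le_exp _) m
      _ = Real.exp (m * κ ^ 2) := by rw [← Real.exp_nat_mul]
  have hi1 : Integrable fun κ : ℝ => c * Real.exp (-(b + m) * κ ^ 2) :=
    (integrable_exp_neg_mul_sq hbm).const_mul c
  have hi2 : Integrable fun κ : ℝ => c / (1 + κ ^ 2) ^ m * Real.exp (-(b * κ ^ 2)) := by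
    refine Integrable.mono' (integrable_inv_one_add_sq.const_mul c) ?_ ?_
    · refine Continuous.aestronglyMeasurable ?_
      refine Continuous.mul (Continuous.div continuous_const (by fun_prop) fun x => ?_)
        (by fun_prop)
      positivity
    · refine Filter.Eventually.of_forall fun κ => ?_
      rw [Real.norm_eq_abs, abs_of_nonneg (by positivity)]
      have h1 : Real.exp (-(b * κ ^ 2)) ≤ 1 := by
        rw [Real.exp_le_one_iff]
        have : 0 ≤ b * κ ^ 2 := by positivity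
        linarith
      have h2 : c / (1 + κ ^ 2) ^ m ≤ c * (1 + κ ^ 2)⁻¹ := by
        rw [div_eq_mul_inv]
        refine mul_le_mul_of_nonneg_left ?_ hc.le
        refine inv_anti₀ (by positivity) ?_
        exact le_self_pow₀ (by nlinarith [sq_nonneg κ]) (by omega)
      calc c / (1 + κ ^ 2) ^ m * Real.exp (-(b * κ ^ 2)) ≤ c / (1 + κ ^ 2) ^ m * 1 :=
            mul_le_mul_of_nonneg_left h1 (by positivity)
        _ ≤ _ := by rw [mul_one]; exact h2
  exact integral_mono hi1 hi2 hpt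

theorem sqrtpi_low (z : ℝ) (hz : 0 < z) :
    3 / 2 / √z ≤ 8 / (3 * Real.pi) * √(Real.pi / z) := by
  set q : ℝ := √Real.pi with hq'
  have hq : 0 < q := Real.sqrt_pos.2 Real.pi_pos
  have hqq : q ^ 2 = Real.pi := Real.sq_sqrt Real.pi_pos.le
  have hq1 : q ≤ 16 / 9 := by
    rw [hq', Real.sqrt_le_left (by norm_num)]
    have := Real.pi_lt_d2
    norm_num at this ⊢
    linarith
  have hz0 : 0 < √z := Real.sqrt_pos.2 hz
  rw [Real.sqrt_div Real.pi_pos.le, ← hq', ← hqq]
  rw [div_le_iff₀ hz0]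
  have h1 : 8 / (3 * q ^ 2) * (q / √z) * √z = 8 / (3 * q) := by
    field_simp
  rw [h1, le_div_iff₀ (by positivity)]
  linarith

theorem kappaNum2 (hKM : KappaMoments) : KappaNum2 := by
  intro y hy
  obtain ⟨pnu, hk4, -, hk2, -, -⟩ := hKM
  haveI := pnu
  set M0 : ℝ := ∫ κ, Real.exp (-(y * κ ^ 2)) ∂nu with hM0
  set M1 : ℝ := ∫ κ, (1 + κ ^ 2) * Real.exp (-(y * κ ^ 2)) ∂nu with hM1
  have hk2i : Integrable (fun κ : ℝ => κ ^ 2) nu := by
    by_contra hni
    rw [integral_undef hni] at hk2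
    norm_num at hk2
  have hexp1 : ∀ κ : ℝ, Real.exp (-(y * κ ^ 2)) ≤ 1 := by
    intro κ
    rw [Real.exp_le_one_iff]
    have : 0 ≤ y * κ ^ 2 := by positivity
    linarith
  have hi0 : Integrable (fun κ : ℝ => Real.exp (-(y * κ ^ 2))) nu := by
    refine (integrable_const (1 : ℝ)).mono' ?_ ?_
    · exact (Measurable.aestronglyMeasurable (by fun_prop))
    · refine Filter.Eventually.of_forall fun κ => ?_
      rw [Real.norm_of_nonneg (Real.exp_pos _).le]
      exact hexp1 κ
  have hi1 : Integrable (fun κ : ℝ => (1 + κ ^ 2) * Real.exp (-(y * κ ^ 2))) nu := by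
    refine ((integrable_const (1 : ℝ)).add hk2i).mono' ?_ ?_
    · exact (Measurable.aestronglyMeasurable (by fun_prop))
    · refine Filter.Eventually.of_forall fun κ => ?_
      rw [Real.norm_of_nonneg (by positivity)]
      simp only [Pi.add_apply]
      nlinarith [hexp1 κ, sq_nonneg κ]
  rcases le_total y (7 / 10) with hy1 | hy1
  · -- small `y`
    have h0 : 1 - y / 3 ≤ M0 := by
      have h1 : ∫ κ, (1 - y * κ ^ 2) ∂nu = 1 - y / 3 := by
        rw [integral_sub (integrable_const _) (hk2i.const_mul y), integral_const_mul, hk2]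
        simp
        ring
      rw [← h1]
      refine integral_mono ((integrable_const _).sub (hk2i.const_mul y)) hi0 fun κ => ?_
      have := Real.add_one_le_exp (-(y * κ ^ 2))
      linarith
    have h1 : M0 ≤ M1 := by
      refine integral_mono hi0 hi1 fun κ => ?_
      have := mul_nonneg (sq_nonneg κ) (Real.exp_pos (-(y * κ ^ 2))).le
      simp only
      linarith
    have h2 : (1 - y / 3) ^ 2 ≤ M0 ^ 2 := pow_le_pow_left₀ (by linarith) h0 2
    have h3 : y * (1 - y / 3) ≤ y * M1 := mul_le_mul_of_nonneg_left (h0.trans h1) hy.le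
    nlinarith
  · -- large `y`
    have h0 : 3 / 2 / √(y + 3) ≤ M0 := by
      refine (sqrtpi_low (y + 3) (by linarith)).trans ?_
      have h1 := gauss_low y hy.le 3 (by norm_num)
      have h2 : ((3 : ℕ) : ℝ) = 3 := by norm_num
      rw [h2] at h1
      refine h1.trans (le_of_eq ?_)
      rw [hM0, int_nu]
      rfl
    have h1 : 3 / 2 / √(y + 2) ≤ M1 := by
      refine (sqrtpi_low (y + 2) (by linarith)).trans ?_
      have h1 := gauss_low y hy.le 2 (by norm_num)
      have h2 : ((2 : ℕ) : ℝ) = 2 := by norm_num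
      rw [h2] at h1
      refine h1.trans (le_of_eq ?_)
      rw [hM1, int_nu]
      refine integral_congr_ae (Filter.Eventually.of_forall fun κ => ?_)
      have e3 : (1 + κ ^ 2 : ℝ) ≠ 0 := by positivity
      simp only
      unfold kd
      field_simp
    have h2 : 9 / 4 / (y + 3) ≤ M0 ^ 2 := by
      have h3 : (3 / 2 / √(y + 3)) ^ 2 = 9 / 4 / (y + 3) := by
        rw [div_pow, Real.sq_sqrt (by linarith)]
        norm_num
      rw [← h3]
      exact pow_le_pow_left₀ (by positivity) h0 2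
    have h3 : y * (3 / 2 / √(y + 2)) ≤ y * M1 := mul_le_mul_of_nonneg_left h1 hy.le
    set q : ℝ := √(y + 2) with hq
    have hq2 : q ^ 2 = y + 2 := Real.sq_sqrt (by linarith)
    have hq0 : 3 / 2 ≤ q := by
      rw [hq]
      apply Real.le_sqrt_of_sq_le
      linarith
    have hqp : 0 < q := by linarith
    have h4 : 4 < 6 * (9 / 4 / (y + 3)) + y * (3 / 2 / q) := by
      have e1 : y = q ^ 2 - 2 := by linarith
      rw [e1]
      have e2 : 6 * (9 / 4 / (q ^ 2 - 2 + 3)) + (q ^ 2 - 2) * (3 / 2 / q) - 4 =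
          (3 / 2 * q ^ 4 - 4 * q ^ 3 - 3 / 2 * q ^ 2 + 19 / 2 * q - 3) / (q * (q ^ 2 + 1)) := by
        have h5 : q ^ 2 - 2 + 3 = q ^ 2 + 1 := by ring
        rw [h5]
        field_simp
        ring
      have e3 : 0 < 3 / 2 * q ^ 4 - 4 * q ^ 3 - 3 / 2 * q ^ 2 + 19 / 2 * q - 3 := by
        nlinarith [sq_nonneg (q ^ 2 - 4 / 3 * q - 25 / 18)]
      have e4 : 0 < (3 / 2 * q ^ 4 - 4 * q ^ 3 - 3 / 2 * q ^ 2 + 19 / 2 * q - 3) /
          (q * (q ^ 2 + 1)) := by positivity
      linarith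
    linarith

end Pool.Agent.U958.FV
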