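import Pool.Agent.U958.FV.Defs

/-! # The numerical constant -/

set_option autoImplicit false

namespace Pool.Agent.U958.FV
open Pool.Agent.W716.FV

theorem numFinal2 : NumFinal2 := by
  unfold NumFinal2
  have h1 : (1.732 : ℝ) ≤ √3 := by
    apply Real.le_sqrt_of_sq_le
    norm_num
  have h2 : (1.6486 : ℝ) ≤ Real.exp (1 / 2) := by
    refine le_trans ?_ (Real.sum_le_exp_of_nonneg (by norm_num) 8)
    simp only [Finset.sum_range_succ, Finset.sum_range_zero, Nat.factorial]
    norm_num
  have h6 : √(2 * Real.pi) ≤ 2.5067 := by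
    rw [Real.sqrt_le_left (by norm_num)]
    have := Real.pi_lt_d6
    norm_num at this ⊢
    linarith
  have h7 : 0 < √(2 * Real.pi) := Real.sqrt_pos.2 (by positivity)
  rw [le_div_iff₀ h7]
  calc 1 / 5 * √(2 * Real.pi) ≤ 1 / 5 * 2.5067 := by linarith
    _ ≤ 1.732 * 1.6486 * (178 / 1000) := by norm_num
    _ ≤ _ := by gcongr

end Pool.Agent.U958.FV
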