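import Pool.Agent.U958.FV.Defs
import Pool.Agent.W293.FV.OV

/-!
# Shifted Gaussians: sharp quadratic form of the overlap inequality
-/

set_option autoImplicit false

open MeasureTheory Filter Topology Set

namespace Pool.Agent.U958.FV

open Pool.Agent.W716.FV Pool.Agent.W293.FV.OV

variable {n : ℕ}

/-- the pointwise inequality -/
theorem ov_pt (q₁ q₂ ρ l : ℝ) (W D : E n) :
    2 * l * ((q₂ ^ 2 - q₁ ^ 2) * inner ℝ W D) ≤
      q₁ ^ 2 * ‖W + (1 / 2 : ℝ) • D‖ ^ 2 + q₂ ^ 2 * ‖W - (1 / 2 : ℝ) • D‖ ^ 2 +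
      (l + 1 / 2) ^ 2 * ‖D‖ ^ 2 * ((q₁ ^ 2 + q₂ ^ 2) * (1 + ρ ^ 2) - 4 * ρ * (q₁ * q₂)) -
      ‖D‖ ^ 2 / 4 * (q₁ ^ 2 + q₂ ^ 2) := by
  have e1 : ‖W + (1 / 2 : ℝ) • D‖ ^ 2 = ‖W‖ ^ 2 + inner ℝ W D + ‖D‖ ^ 2 / 4 := by
    rw [@norm_add_sq ℝ, inner_smul_right, norm_smul, mul_pow]
    norm_num
    ring
  have e2 : ‖W - (1 / 2 : ℝ) • D‖ ^ 2 = ‖W‖ ^ 2 - inner ℝ W D + ‖D‖ ^ 2 / 4 := by
    rw [@norm_sub_sq ℝ, inner_smul_right, norm_smul, mul_pow]
    norm_num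
    ring
  rw [e1, e2]
  set s : ℝ := q₁ ^ 2 + q₂ ^ 2 with hs
  set B : ℝ := l + 1 / 2 with hB
  -- the claim is `0 ≤ s |W|² - 2 B (q₂² - q₁²) ⟨W, D⟩ + B² |D|² (s (1 + ρ²) - 4 ρ q₁ q₂)`
  suffices h : 0 ≤ s * ‖W‖ ^ 2 - 2 * B * ((q₂ ^ 2 - q₁ ^ 2) * inner ℝ W D) +
      B ^ 2 * ‖D‖ ^ 2 * (s * (1 + ρ ^ 2) - 4 * ρ * (q₁ * q₂)) by
    rw [hs] at h ⊢
    rw [hB] at h ⊢
    nlinarith
  have hs0 : 0 ≤ s := by positivity
  rcases hs0.eq_or_lt with h0 | h0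
  · have h1 : q₁ = 0 := by
      have : q₁ ^ 2 = 0 := by nlinarith [sq_nonneg q₁, sq_nonneg q₂]
      exact pow_eq_zero_iff (two_ne_zero) |>.1 this
    have h2 : q₂ = 0 := by
      have : q₂ ^ 2 = 0 := by nlinarith [sq_nonneg q₁, sq_nonneg q₂]
      exact pow_eq_zero_iff (two_ne_zero) |>.1 this
    rw [← h0, h1, h2]
    simp
  · have h1 : 0 ≤ ‖s • W - (B * (q₂ ^ 2 - q₁ ^ 2)) • D‖ ^ 2 +
        B ^ 2 * ‖D‖ ^ 2 * (2 * (q₁ * q₂) - ρ * s) ^ 2 := by positivity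
    have h2 : ‖s • W - (B * (q₂ ^ 2 - q₁ ^ 2)) • D‖ ^ 2 =
        s ^ 2 * ‖W‖ ^ 2 - 2 * (s * (B * (q₂ ^ 2 - q₁ ^ 2)) * inner ℝ W D) +
        (B * (q₂ ^ 2 - q₁ ^ 2)) ^ 2 * ‖D‖ ^ 2 := by
      rw [norm_sub_sq_real, real_inner_smul_left, real_inner_smul_right, norm_smul, norm_smul,
        mul_pow, mul_pow, Real.norm_eq_abs, Real.norm_eq_abs, sq_abs, sq_abs]
      ring
    have h3 : s * (s * ‖W‖ ^ 2 - 2 * B * ((q₂ ^ 2 - q₁ ^ 2) * inner ℝ W D) +
        B ^ 2 * ‖D‖ ^ 2 * (s * (1 + ρ ^ 2) - 4 * ρ * (q₁ * q₂))) =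
        ‖s • W - (B * (q₂ ^ 2 - q₁ ^ 2)) • D‖ ^ 2 +
        B ^ 2 * ‖D‖ ^ 2 * (2 * (q₁ * q₂) - ρ * s) ^ 2 := by
      rw [h2, hs]
      ring
    rw [← h3] at h1
    exact nonneg_of_mul_nonneg_right h1 h0

theorem overlap2 (hGM : GaussMoments) : Overlap2 := by
  intro n V K hV hK c₁ c₂ η₁ η₂ l
  obtain ⟨gi, g1⟩ := gd_int (n := n) hGM
  have hgi : ∀ c : E n, Integrable (fun x => gd n (x - c)) := fun c => gi.comp_sub_right c
  have hg1 : ∀ c : E n, ∫ x, gd n (x - c) = 1 := fun c => by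
    rw [integral_sub_right_eq_self (gd n) c, g1]
  set ρ := Real.exp (-‖c₂ - c₁‖ ^ 2 / 8) with hρ
  set D : E n := η₂ - η₁ with hD
  have hrr : ∫ x, rr c₁ x * rr c₂ x = ρ := by
    simp only [rr_mul]
    rw [integral_mul_const, hg1, one_mul]
  have hrri : Integrable (fun x => rr c₁ x * rr c₂ x) := by
    simp only [rr_mul]
    exact (hgi _).mul_const _
  have hVi : ∀ c : E n, Integrable (fun x => gd n (x - c) • V x) := by
    intro c
    refine ((hgi c).mul_const K).mono' ?_ (Eventually.of_forall fun x => ?_)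
    · exact ((gd_cont.comp (continuous_id.sub continuous_const)).measurable.smul
        hV).aestronglyMeasurable
    · rw [norm_smul, Real.norm_of_nonneg (gd_nonneg _)]
      exact mul_le_mul_of_nonneg_left (hK x) (gd_nonneg _)
  have hYi : ∀ c η : E n, Integrable (fun x => gd n (x - c) * ‖V x - η‖ ^ 2) := by
    intro c η
    refine ((hgi c).mul_const ((K + ‖η‖) ^ 2)).mono' ?_ (Eventually.of_forall fun x => ?_)
    · exact ((gd_cont.comp (continuous_id.sub continuous_const)).measurable.mul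
        ((hV.sub_const η).norm.pow_const 2)).aestronglyMeasurable
    · rw [norm_mul, Real.norm_of_nonneg (gd_nonneg _), Real.norm_of_nonneg (by positivity)]
      refine mul_le_mul_of_nonneg_left ?_ (gd_nonneg _)
      refine pow_le_pow_left₀ (norm_nonneg _) ?_ 2
      exact (norm_sub_le _ _).trans (by linarith [hK x])
  have hvy : ∀ c η : E n, ∫ x, ‖V (x + c) - η‖ ^ 2 ∂(gam n) =
      ∫ x, gd n (x - c) * ‖V x - η‖ ^ 2 := by
    intro c η
    rw [int_shift (fun x => ‖V x - η‖ ^ 2) c]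
    simp only [smul_eq_mul]
  rw [hvy, hvy]
  set m := (1 / 2 : ℝ) • (η₁ + η₂) with hm
  have hmi : ∀ c : E n, Integrable (fun x => gd n (x - c) • m) := fun c =>
    (hgi c).smul_const m
  -- the left side
  have hdi : Integrable (fun x => (gd n (x - c₂) - gd n (x - c₁)) • (V x - m)) := by
    have j1 : Integrable (fun x => gd n (x - c₂) • V x - gd n (x - c₁) • V x) :=
      (hVi c₂).sub (hVi c₁)
    have j2 : Integrable (fun x => gd n (x - c₂) • m - gd n (x - c₁) • m) :=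
      (hmi c₂).sub (hmi c₁)
    refine (j1.sub j2).congr (Eventually.of_forall fun x => ?_)
    simp only [Pi.sub_apply]
    rw [sub_smul, smul_sub, smul_sub]
    abel
  have e1 : (∫ x, V (x + c₂) ∂(gam n)) - ∫ x, V (x + c₁) ∂(gam n) =
      ∫ x, (gd n (x - c₂) - gd n (x - c₁)) • (V x - m) := by
    rw [int_shift, int_shift]
    have e2 : ∀ x, (gd n (x - c₂) - gd n (x - c₁)) • (V x - m) =
        (gd n (x - c₂) • V x - gd n (x - c₁) • V x) -
          (gd n (x - c₂) • m - gd n (x - c₁) • m) := by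
      intro x
      rw [sub_smul, smul_sub, smul_sub]
      abel
    simp only [e2]
    have j1 : Integrable (fun x => gd n (x - c₂) • V x - gd n (x - c₁) • V x) :=
      (hVi c₂).sub (hVi c₁)
    have j2 : Integrable (fun x => gd n (x - c₂) • m - gd n (x - c₁) • m) :=
      (hmi c₂).sub (hmi c₁)
    rw [integral_sub j1 j2,
      integral_sub (hVi c₂) (hVi c₁), integral_sub (hmi c₂) (hmi c₁), integral_smul_const,
      integral_smul_const, hg1, hg1, sub_self, sub_zero]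
  have e3 : 2 * l * inner ℝ ((∫ x, V (x + c₂) ∂(gam n)) - ∫ x, V (x + c₁) ∂(gam n)) D =
      ∫ x, 2 * l * ((gd n (x - c₂) - gd n (x - c₁)) * inner ℝ (V x - m) D) := by
    rw [e1, integral_const_mul]
    congr 1
    rw [real_inner_comm, ← integral_inner hdi]
    refine integral_congr_ae (Eventually.of_forall fun x => ?_)
    simp only
    rw [inner_smul_right, real_inner_comm]
  rw [e3]
  have hLi : Integrable (fun x => 2 * l * ((gd n (x - c₂) - gd n (x - c₁)) *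
      inner ℝ (V x - m) D)) := by
    have h1 : Integrable (fun x => inner ℝ D ((gd n (x - c₂) - gd n (x - c₁)) • (V x - m))) :=
      hdi.const_inner D
    refine (h1.const_mul (2 * l)).congr (Eventually.of_forall fun x => ?_)
    simp only
    rw [inner_smul_right, real_inner_comm]
  set g : E n → ℝ := fun x => (gd n (x - c₁) * ‖V x - η₁‖ ^ 2 + gd n (x - c₂) * ‖V x - η₂‖ ^ 2) +
      (l + 1 / 2) ^ 2 * ‖D‖ ^ 2 * ((gd n (x - c₁) + gd n (x - c₂)) * (1 + ρ ^ 2) -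
        4 * ρ * (rr c₁ x * rr c₂ x)) -
      ‖D‖ ^ 2 / 4 * (gd n (x - c₁) + gd n (x - c₂)) with hg
  have hsi : Integrable (fun x => gd n (x - c₁) + gd n (x - c₂)) := (hgi c₁).add (hgi c₂)
  have hA : Integrable (fun x => gd n (x - c₁) * ‖V x - η₁‖ ^ 2 +
      gd n (x - c₂) * ‖V x - η₂‖ ^ 2) := (hYi c₁ η₁).add (hYi c₂ η₂)
  have hB0 : Integrable (fun x => (gd n (x - c₁) + gd n (x - c₂)) * (1 + ρ ^ 2) -
        4 * ρ * (rr c₁ x * rr c₂ x)) := (hsi.mul_const _).sub (hrri.const_mul _)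
  have hB : Integrable (fun x => (l + 1 / 2) ^ 2 * ‖D‖ ^ 2 *
      ((gd n (x - c₁) + gd n (x - c₂)) * (1 + ρ ^ 2) - 4 * ρ * (rr c₁ x * rr c₂ x))) :=
    hB0.const_mul _
  have hC : Integrable (fun x => ‖D‖ ^ 2 / 4 * (gd n (x - c₁) + gd n (x - c₂))) :=
    hsi.const_mul _
  have hgint : ∫ x, g x = (∫ x, gd n (x - c₁) * ‖V x - η₁‖ ^ 2) +
      (∫ x, gd n (x - c₂) * ‖V x - η₂‖ ^ 2) +
      (l + 1 / 2) ^ 2 * ‖D‖ ^ 2 * (2 - 2 * ρ ^ 2) - ‖D‖ ^ 2 / 2 := by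
    have hs2 : ∫ x, (gd n (x - c₁) + gd n (x - c₂)) = 2 := by
      rw [integral_add (hgi c₁) (hgi c₂), hg1, hg1]
      norm_num
    have t1 : ∫ x, g x = (∫ x, (gd n (x - c₁) * ‖V x - η₁‖ ^ 2 +
        gd n (x - c₂) * ‖V x - η₂‖ ^ 2)) + (∫ x, (l + 1 / 2) ^ 2 * ‖D‖ ^ 2 *
      ((gd n (x - c₁) + gd n (x - c₂)) * (1 + ρ ^ 2) - 4 * ρ * (rr c₁ x * rr c₂ x))) -
        ∫ x, ‖D‖ ^ 2 / 4 * (gd n (x - c₁) + gd n (x - c₂)) := by
      have u1 := integral_add hA hB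
      have u2 := integral_sub (hA.add hB) hC
      rw [← u1]
      exact u2
    rw [t1, integral_add (hYi c₁ η₁) (hYi c₂ η₂), integral_const_mul, integral_const_mul,
      integral_sub (hsi.mul_const _) (hrri.const_mul _), integral_mul_const, integral_const_mul,
      hrr, hs2]
    ring
  have hfin : ∫ x, 2 * l * ((gd n (x - c₂) - gd n (x - c₁)) * inner ℝ (V x - m) D) ≤
      ∫ x, g x := by
    refine integral_mono hLi ((hA.add hB).sub hC) fun x => ?_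
    have h1 := ov_pt (rr c₁ x) (rr c₂ x) ρ l (V x - m) D
    rw [rr_sq, rr_sq] at h1
    have h2 : V x - m + (1 / 2 : ℝ) • D = V x - η₁ := by
      rw [hm, hD, smul_add, smul_sub]
      have h5 : η₁ = (1 / 2 : ℝ) • η₁ + (1 / 2 : ℝ) • η₁ := by
        rw [← add_smul]
        norm_num
      nth_rewrite 3 [h5]
      abel
    have h3 : V x - m - (1 / 2 : ℝ) • D = V x - η₂ := by
      rw [hm, hD, smul_add, smul_sub]
      have h5 : η₂ = (1 / 2 : ℝ) • η₂ + (1 / 2 : ℝ) • η₂ := by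
        rw [← add_smul]
        norm_num
      nth_rewrite 3 [h5]
      abel
    rw [h2, h3] at h1
    exact h1
  rw [hgint] at hfin
  have hρ2 : ρ ^ 2 = Real.exp (-‖c₂ - c₁‖ ^ 2 / 4) := by
    rw [hρ, ← Real.exp_nat_mul]
    congr 1
    push_cast
    ring
  rw [hρ2] at hfin
  exact hfin

end Pool.Agent.U958.FV
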