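import Pool.Agent.U958.FV.Defs

/-!
# The estimate for a fixed point of the cone
-/

set_option autoImplicit false

open MeasureTheory

namespace Pool.Agent.U958.FV

open Pool.Agent.W716.FV

theorem perP2 (hTD : TDeriv) (hSY : ASymm) (hAI : AIdent) (hHS : HS2)
    (hDL : DetLower2) (hIN : Inject2) : PerP2 := by
  intro n R u hR hu ε hε
  obtain ⟨hT, hS⟩ := hTD n R u hR hu
  have hTc : Continuous (TT u) := continuous_iff_continuousAt.2 fun η => (hT η).continuousAt
  set Z : Set (E n) := {η | ‖TT u η‖ ≤ ε} ∩ {η | SS R u η ≤ 1 / 2} with hZdef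
  have hZ : MeasurableSet Z := ((isClosed_le hTc.norm continuous_const).inter
    (isClosed_le hS continuous_const)).measurableSet
  set c : ℝ := Real.exp (-(R ^ 2) / 2 - 1 / 2) with hc
  have hpt : ∀ η : E n,
      ENNReal.ofReal (wt2 ε η (SS R u η, TT u η) * Real.exp (SS R u η - 1 / 2)) ≤
        Z.indicator (fun η => ENNReal.ofReal c *
          ENNReal.ofReal |(AA u η - ContinuousLinearMap.id ℝ (E n)).det|) η := by
    intro η
    by_cases hη : η ∈ Z
    · rw [Set.indicator_of_mem hη, ← ENNReal.ofReal_mul (Real.exp_pos _).le]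
      refine ENNReal.ofReal_le_ofReal ?_
      obtain ⟨h1, h2⟩ := hη
      have h1' : ‖TT u η‖ ≤ ε := h1
      have h2' : SS R u η ≤ 1 / 2 := h2
      unfold wt2
      by_cases h0 : 0 ≤ SS R u η
      · rw [if_pos ⟨h1', h0, h2'⟩]
        obtain ⟨htr, -⟩ := hAI n R u hR hu η
        have hD := hDL n (AA u η) (SS R u η) (hSY n R u hR hu η) (hHS n R u hR hu η) h2'
        rw [htr] at hD
        set s : ℝ := SS R u η with hs
        have h5 : Real.exp (-‖η‖ ^ 2 / 2 - inner ℝ (TT u η) η) * phi s *
            Real.exp (s - 1 / 2) = c * (Real.exp (-(3 * s - EX R u η / 2)) *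
              (1 - 4 / 5 * s - 31 / 40 * s ^ 2)) := by
          unfold phi
          have h6 : Real.exp (-‖η‖ ^ 2 / 2 - inner ℝ (TT u η) η) * Real.exp (-4 * s) *
              Real.exp (s - 1 / 2) = c * Real.exp (-(3 * s - EX R u η / 2)) := by
            rw [hc, ← Real.exp_add, ← Real.exp_add, ← Real.exp_add]
            congr 1
            unfold EX
            ring
          rw [← mul_assoc c, ← h6]
          ring
        simp only at h5 ⊢
        rw [h5]
        exact mul_le_mul_of_nonneg_left hD (Real.exp_pos _).le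
      · rw [if_neg (fun h => h0 h.2.1), zero_mul]
        positivity
    · rw [Set.indicator_of_notMem hη]
      unfold wt2
      rw [if_neg (fun h => hη ⟨h.1, h.2.2⟩), zero_mul, ENNReal.ofReal_zero]
  refine (lintegral_mono hpt).trans ?_
  rw [lintegral_indicator hZ, lintegral_const_mul' _ _ ENNReal.ofReal_ne_top]
  refine mul_le_mul_right ?_ _
  rw [lintegral_abs_det_fderiv_eq_addHaar_image volume hZ
    (fun η _ => (hT η).hasFDerivWithinAt) (fun η₁ h₁ η₂ h₂ h => hIN n R u hR hu η₁ η₂ h₁.2 h₂.2 h)]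
  refine measure_mono ?_
  rintro _ ⟨η, hη, rfl⟩
  rw [Metric.mem_closedBall, dist_zero_right]
  exact hη.1

end Pool.Agent.U958.FV
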