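import Pool.Agent.U958.FV.As2
import Pool.Agent.U958.FV.AI2
import Pool.Agent.U958.FV.DL2
import Pool.Agent.U958.FV.OV2
import Pool.Agent.U958.FV.KN2
import Pool.Agent.U958.FV.IN2
import Pool.Agent.U958.FV.PP2
import Pool.Agent.U958.FV.NF2
import Pool.Agent.W716.FV.Final
import Pool.Agent.W716.FV.NU

/-!
# The constant `2/5`: the main theorem
-/

set_option autoImplicit false

namespace Pool.Agent.U958.FV

open Pool.Agent.W716.FV

theorem hS2' : HS2 := hs2 kM gM pM gF xI
theorem oV2' : Overlap2 := overlap2 gM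
theorem kN2' : KappaNum2 := kappaNum2 kM
theorem iN2' : Inject2 := inject2 kM pM gF xI oV2' kN2'
theorem pP2' : PerP2 := perP2 tD sY aI hS2' detLower2 iN2'

theorem final2 : Main2 :=
  main2 pP2' gaussLower2 rC numFinal2 aR uF pF jA Pool.Agent.W716.FV.nU cV

end Pool.Agent.U958.FV
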