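import Pool.Agent.U958.FV.Defs

/-!
# Lower bound for the integral of the weights
-/

set_option autoImplicit false

open MeasureTheory Set

namespace Pool.Agent.U958.FV

open Pool.Agent.W716.FV

theorem phi_cont : Continuous phi := by
  unfold phi
  fun_prop

theorem phi_nonneg {s : ℝ} (h0 : 0 ≤ s) (h1 : s ≤ 1 / 2) : 0 ≤ phi s := by
  unfold phi
  refine mul_nonneg (Real.exp_pos _).le ?_
  nlinarith

/-- the smooth part of the weight -/
noncomputable def w02 {n : ℕ} (η : E n) (z : ℝ × E n) : ℝ :=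
  Real.exp (-‖η‖ ^ 2 / 2 - inner ℝ z.2 η) * phi z.1

theorem w02_meas {n : ℕ} : Measurable (fun p : E n × (ℝ × E n) => ENNReal.ofReal (w02 p.1 p.2)) := by
  apply ENNReal.measurable_ofReal.comp
  apply Continuous.measurable
  unfold w02
  have h1 : Continuous (fun p : E n × (ℝ × E n) => phi p.2.1) :=
    phi_cont.comp (continuous_fst.comp continuous_snd)
  have h2 : Continuous (fun p : E n × (ℝ × E n) =>
      Real.exp (-‖p.1‖ ^ 2 / 2 - inner ℝ p.2.2 p.1)) := by fun_prop
  exact h2.mul h1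

/-- the Gaussian integral -/
theorem int_w02 {n : ℕ} (z : ℝ × E n) (hz : 0 ≤ phi z.1) :
    ENNReal.ofReal (√(2 * Real.pi) ^ n * phi z.1) ≤
      ∫⁻ η : E n, ENNReal.ofReal (w02 η z) := by
  have h1 : ∫ v : E n, Real.exp (-(1 / 2) * ‖v‖ ^ 2) = √(2 * Real.pi) ^ n := by
    rw [GaussianFourier.integral_rexp_neg_mul_sq_norm (by norm_num)]
    rw [Real.sqrt_eq_rpow, ← Real.rpow_natCast, ← Real.rpow_mul (by positivity)]
    congr 1
    · ring
    · simp
      ring
  have hint : Integrable (fun v : E n => Real.exp (-(1 / 2) * ‖v‖ ^ 2)) := by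
    by_contra hc
    rw [integral_undef hc] at h1
    have : (0 : ℝ) < √(2 * Real.pi) ^ n := by positivity
    linarith
  have h2 : ∫⁻ v : E n, ENNReal.ofReal (Real.exp (-(1 / 2) * ‖v‖ ^ 2)) =
      ENNReal.ofReal (√(2 * Real.pi) ^ n) := by
    rw [← h1, ofReal_integral_eq_lintegral_ofReal hint]
    exact Filter.Eventually.of_forall fun _ => (Real.exp_pos _).le
  have h3 : ∫⁻ v : E n, ENNReal.ofReal (Real.exp (-(1 / 2) * ‖v + z.2‖ ^ 2)) =
      ENNReal.ofReal (√(2 * Real.pi) ^ n) := by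
    rw [← h2]
    exact lintegral_add_right_eq_self
      (fun v : E n => ENNReal.ofReal (Real.exp (-(1 / 2) * ‖v‖ ^ 2))) z.2
  rw [ENNReal.ofReal_mul (by positivity), ← h3, mul_comm,
    ← lintegral_const_mul _ (by fun_prop)]
  apply lintegral_mono
  intro v
  simp only
  rw [← ENNReal.ofReal_mul hz]
  apply ENNReal.ofReal_le_ofReal
  unfold w02
  rw [mul_comm (phi z.1)]
  refine mul_le_mul_of_nonneg_right ?_ hz
  apply Real.exp_le_exp.2
  have h4 : ‖v + z.2‖ ^ 2 = ‖v‖ ^ 2 + 2 * inner ℝ v z.2 + ‖z.2‖ ^ 2 := by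
    rw [@norm_add_sq ℝ]
    simp
  rw [h4, real_inner_comm]
  nlinarith [sq_nonneg ‖z.2‖]

/-- the integral over `s` -/
theorem int_s2 (a C : ℝ) (hC : 0 ≤ C) (h0 : 0 ≤ a) (ha : a ≤ 1 / 2400) :
    ENNReal.ofReal (C * (178 / 1000)) ≤
      ∫⁻ s in Set.Ioc a (1 / 2), ENNReal.ofReal (C * phi s) := by
  have ha' : a ≤ 1 / 2 := by linarith
  have h1 : ∫ s in a..(1 / 2), C * phi s =
      C * (Real.exp (-4 * a) * (45 / 256 - 19 / 64 * a - 31 / 160 * a ^ 2) +
        27 / 1280 * Real.exp (-2)) := by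
    have hd : ∀ s ∈ Set.uIcc a (1 / 2 : ℝ), HasDerivAt
        (fun s => C * -(Real.exp (-4 * s) * (45 / 256 - 19 / 64 * s - 31 / 160 * s ^ 2)))
        (C * phi s) s := by
      intro s _
      have d1 : HasDerivAt (fun s : ℝ => Real.exp (-4 * s)) (Real.exp (-4 * s) * -4) s := by
        have := ((hasDerivAt_id s).const_mul (-4 : ℝ)).exp
        simpa using this
      have d2 : HasDerivAt (fun s : ℝ => 45 / 256 - 19 / 64 * s - 31 / 160 * s ^ 2)
          (-(19 / 64) - 31 / 80 * s) s := by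
        have e1 := ((hasDerivAt_id s).const_mul (19 / 64 : ℝ)).const_sub (45 / 256)
        have e2 := (hasDerivAt_pow 2 s).const_mul (31 / 160 : ℝ)
        refine (e1.sub e2).congr_deriv ?_
        norm_num
        ring
      have d3 := ((d1.mul d2).neg).const_mul C
      refine d3.congr_deriv ?_
      unfold phi
      ring
    rw [intervalIntegral.integral_eq_sub_of_hasDerivAt hd]
    · have : (-4 * (1 / 2) : ℝ) = -2 := by norm_num
      rw [this]
      ring
    · apply Continuous.intervalIntegrable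
      exact continuous_const.mul phi_cont
  have h2 : (178 / 1000 : ℝ) ≤ Real.exp (-4 * a) * (45 / 256 - 19 / 64 * a - 31 / 160 * a ^ 2) +
        27 / 1280 * Real.exp (-2) := by
    have e1 : 1 - 4 * a ≤ Real.exp (-4 * a) := by
      have := Real.add_one_le_exp (-4 * a)
      linarith
    have e2 : (0.135 : ℝ) ≤ Real.exp (-2) := by
      have h3 : Real.exp 2 ≤ 7.39 := by
        have h4 : Real.exp 2 = Real.exp 1 * Real.exp 1 := by
          rw [← Real.exp_add]; norm_num
        have h5 := Real.exp_one_lt_d9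
        have h6 := Real.exp_pos 1
        rw [h4]
        nlinarith
      rw [Real.exp_neg]
      refine le_trans ?_ (inv_anti₀ (Real.exp_pos 2) h3)
      norm_num
    have e3 : (0.17565 : ℝ) ≤ 45 / 256 - 19 / 64 * a - 31 / 160 * a ^ 2 := by nlinarith
    have e4 : (1 - 4 * a) * 0.17565 ≤
        Real.exp (-4 * a) * (45 / 256 - 19 / 64 * a - 31 / 160 * a ^ 2) :=
      mul_le_mul e1 e3 (by norm_num) (Real.exp_pos _).le
    nlinarith
  rw [intervalIntegral.integral_of_le ha'] at h1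
  have h3 : ENNReal.ofReal (∫ s in Set.Ioc a (1 / 2), C * phi s) =
      ∫⁻ s in Set.Ioc a (1 / 2), ENNReal.ofReal (C * phi s) := by
    rw [ofReal_integral_eq_lintegral_ofReal]
    · apply (Continuous.integrableOn_Icc (continuous_const.mul phi_cont)).mono_set
        Ioc_subset_Icc_self
    · refine (ae_restrict_mem measurableSet_Ioc).mono fun s hs => ?_
      exact mul_nonneg hC (phi_nonneg (h0.trans hs.1.le) hs.2)
  rw [← h3, h1]
  exact ENNReal.ofReal_le_ofReal (mul_le_mul_of_nonneg_left h2 hC)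

theorem gaussLower2 : GaussLower2 := by
  intro n ε hε hε2
  set C : ℝ := √(2 * Real.pi) ^ n with hC
  have hC0 : 0 ≤ C := by positivity
  set A : Set (ℝ × E n) := {z : ℝ × E n | ‖z.2‖ ^ 2 / 6 < z.1} with hA
  set B : Set (ℝ × E n) := {z : ℝ × E n | ‖z.2‖ ≤ ε ∧ 0 ≤ z.1 ∧ z.1 ≤ 1 / 2} with hB
  have hAm : MeasurableSet A := by
    apply IsOpen.measurableSet
    exact isOpen_lt (by fun_prop) (by fun_prop)
  have hBm : MeasurableSet B := by
    have c1 : IsClosed {z : ℝ × E n | ‖z.2‖ ≤ ε} := isClosed_le (by fun_prop) (by fun_prop)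
    have c0 : IsClosed {z : ℝ × E n | 0 ≤ z.1} := isClosed_le (by fun_prop) (by fun_prop)
    have c2 : IsClosed {z : ℝ × E n | z.1 ≤ 1 / 2} := isClosed_le (by fun_prop) (by fun_prop)
    exact (c1.inter (c0.inter c2)).measurableSet
  -- the weight as an indicator
  have hw : ∀ (η : E n) (z : ℝ × E n), ENNReal.ofReal (wt2 ε η z) =
      B.indicator (fun z => ENNReal.ofReal (w02 η z)) z := by
    intro η z
    unfold wt2
    by_cases hz : z ∈ B
    · have hz' : ‖z.2‖ ≤ ε ∧ 0 ≤ z.1 ∧ z.1 ≤ 1 / 2 := hz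
      rw [indicator_of_mem hz, if_pos hz']
      rfl
    · have hz' : ¬ (‖z.2‖ ≤ ε ∧ 0 ≤ z.1 ∧ z.1 ≤ 1 / 2) := hz
      rw [indicator_of_notMem hz, if_neg hz']
      simp
  have h1 : ∫⁻ η : E n, ∫⁻ z in A, ENNReal.ofReal (wt2 ε η z) =
      ∫⁻ η : E n, ∫⁻ z in A ∩ B, ENNReal.ofReal (w02 η z) := by
    congr 1
    funext η
    simp_rw [hw]
    rw [lintegral_indicator hBm, Measure.restrict_restrict hBm, inter_comm]
  have h2 : ∫⁻ η : E n, ∫⁻ z in A ∩ B, ENNReal.ofReal (w02 η z) =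
      ∫⁻ z in A ∩ B, ∫⁻ η : E n, ENNReal.ofReal (w02 η z) := by
    apply lintegral_lintegral_swap
    exact w02_meas.aemeasurable
  rw [h1, h2]
  have hABm : MeasurableSet (A ∩ B) := hAm.inter hBm
  have h3 : ∫⁻ z in A ∩ B, ENNReal.ofReal (C * phi z.1) ≤
      ∫⁻ z in A ∩ B, ∫⁻ η : E n, ENNReal.ofReal (w02 η z) := by
    refine setLIntegral_mono' hABm fun z hz => ?_
    exact int_w02 z (phi_nonneg hz.2.2.1 hz.2.2.2)
  refine le_trans ?_ h3
  rw [← lintegral_indicator hABm]
  have hfm : Measurable ((A ∩ B).indicator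
      fun z : ℝ × E n => ENNReal.ofReal (C * phi z.1)) := by
    apply Measurable.indicator _ hABm
    exact ((phi_cont.comp continuous_fst).measurable.const_mul C).ennreal_ofReal
  rw [Measure.volume_eq_prod, lintegral_prod_symm _ hfm.aemeasurable]
  -- restrict to the ball
  have h4 : ∀ τ : E n, (Metric.closedBall (0 : E n) ε).indicator (fun _ =>
      ENNReal.ofReal (C * (178 / 1000))) τ ≤
      ∫⁻ s : ℝ, (A ∩ B).indicator
        (fun z : ℝ × E n => ENNReal.ofReal (C * phi z.1)) (s, τ) := by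
    intro τ
    by_cases hτ : τ ∈ Metric.closedBall (0 : E n) ε
    · rw [indicator_of_mem hτ]
      rw [mem_closedBall_zero_iff] at hτ
      have hτ2 : ‖τ‖ ^ 2 ≤ ε ^ 2 := by
        have := norm_nonneg τ
        nlinarith
      have h0a : 0 ≤ ‖τ‖ ^ 2 / 6 := by positivity
      have ha : ‖τ‖ ^ 2 / 6 ≤ 1 / 2400 := by nlinarith
      have h5 := int_s2 (‖τ‖ ^ 2 / 6) C hC0 h0a ha
      have h6 : ∀ s : ℝ, (A ∩ B).indicator
          (fun z : ℝ × E n => ENNReal.ofReal (C * phi z.1)) (s, τ) =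
          (Set.Ioc (‖τ‖ ^ 2 / 6) (1 / 2 : ℝ)).indicator
            (fun s => ENNReal.ofReal (C * phi s)) s := by
        intro s
        by_cases hs : s ∈ Set.Ioc (‖τ‖ ^ 2 / 6) (1 / 2 : ℝ)
        · rw [indicator_of_mem hs, indicator_of_mem]
          exact ⟨hs.1, hτ, h0a.trans hs.1.le, hs.2⟩
        · rw [indicator_of_notMem hs, indicator_of_notMem]
          rintro ⟨h7, _, _, h8⟩
          exact hs ⟨h7, h8⟩
      simp_rw [h6]
      rw [lintegral_indicator measurableSet_Ioc]
      exact h5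
    · rw [indicator_of_notMem hτ]
      exact zero_le
  calc _ = ∫⁻ τ : E n, (Metric.closedBall (0 : E n) ε).indicator (fun _ =>
      ENNReal.ofReal (C * (178 / 1000))) τ := by
        rw [lintegral_indicator Metric.isClosed_closedBall.measurableSet, lintegral_const,
          Measure.restrict_apply_univ]
    _ ≤ _ := lintegral_mono h4

end Pool.Agent.U958.FV
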